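import Pool.Agent.H703R2.AA.Osss

/-!
# Quantum query algorithms with a bounded quantum memory, as real processes
-/

set_option autoImplicit false
set_option linter.unusedSectionVars false

namespace Pool.Agent.H703R2.AA

open Finset Matrix Pool.Agent.H722R2.AA Pool.Agent.H746R2.AA

/-- A complex number as a real `2 × 2` matrix. -/
def rho (c : ℂ) (p q : Bool) : ℝ :=
  cond p (cond q c.re c.im) (cond q (-c.im) c.re)

variable {μ : Type*} [Fintype μ] [DecidableEq μ]

/-- A complex matrix as a real matrix. -/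
def rm (C : Matrix μ μ ℂ) (p q : μ × Bool) : ℝ := rho (C p.1 q.1) p.2 q.2

/-- A complex vector as a real vector. -/
def rv (u : μ → ℂ) (p : μ × Bool) : ℝ := cond p.2 (u p.1).im (u p.1).re

lemma rho_zero (p q : Bool) : rho 0 p q = 0 := by
  cases p <;> cases q <;> simp [rho]

lemma rho_sum {τ : Type*} (s : Finset τ) (c : τ → ℂ) (p q : Bool) :
    rho (∑ a ∈ s, c a) p q = ∑ a ∈ s, rho (c a) p q := by
  cases p <;> cases q <;> simp [rho, Complex.re_sum, Complex.im_sum]

lemma mv_rm (C : Matrix μ μ ℂ) (u : μ → ℂ) : mv (rm C) (rv u) = rv (C *ᵥ u) := by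
  funext ⟨i, p⟩
  simp only [mv, rm, rv, Matrix.mulVec, dotProduct]
  rw [Fintype.sum_prod_type]
  simp only [Fintype.sum_bool]
  cases p
  · simp only [rho, cond_true, cond_false, Complex.re_sum, Complex.mul_re]
    exact Finset.sum_congr rfl fun j _ => by ring
  · simp only [rho, cond_true, cond_false, Complex.im_sum, Complex.mul_im]

lemma nsq_rv (u : μ → ℂ) : nsq (rv u) = ∑ i, ‖u i‖ ^ 2 := by
  unfold nsq
  rw [Fintype.sum_prod_type]
  refine Finset.sum_congr rfl fun i _ => ?_
  rw [Fintype.sum_bool]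
  simp only [rv, cond_true, cond_false]
  rw [← Complex.normSq_eq_norm_sq, Complex.normSq_apply]
  ring

lemma gram_rm (C D : Matrix μ μ ℂ) (i j : μ × Bool) :
    ∑ m, rm C m i * rm D m j = rho ((Cᴴ * D) i.1 j.1) i.2 j.2 := by
  obtain ⟨i, p⟩ := i
  obtain ⟨j, q⟩ := j
  rw [Matrix.mul_apply, rho_sum, Fintype.sum_prod_type]
  refine Finset.sum_congr rfl fun m _ => ?_
  rw [Fintype.sum_bool]
  simp only [rm, Matrix.conjTranspose_apply, Complex.star_def]
  cases p <;> cases q <;>
    simp only [rho, cond_true, cond_false, Complex.mul_re, Complex.mul_im, Complex.conj_re,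
      Complex.conj_im] <;> ring

lemma rho_one (i j : μ × Bool) :
    rho ((1 : Matrix μ μ ℂ) i.1 j.1) i.2 j.2 = if i = j then 1 else 0 := by
  obtain ⟨i, p⟩ := i
  obtain ⟨j, q⟩ := j
  simp only [Matrix.one_apply, Prod.mk.injEq]
  by_cases h : i = j
  · subst h
    cases p <;> cases q <;> simp [rho]
  · simp only [h, if_false, false_and]
    exact rho_zero p q

variable {κ B W : Type*} [Fintype κ] [DecidableEq κ] [Fintype B] [DecidableEq B] [Fintype W]

/-- The projection to the basis states with a given position. -/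
noncomputable def prj (pos : B → Option κ) (k : Option κ) : Matrix B B ℂ :=
  Matrix.diagonal (fun b => if pos b = k then 1 else 0)

lemma prj_mul (pos : B → Option κ) (k l : Option κ) :
    prj pos k * prj pos l = if k = l then prj pos k else 0 := by
  unfold prj
  rw [Matrix.diagonal_mul_diagonal]
  split_ifs with h
  · subst h
    congr 1
    funext b
    split_ifs <;> simp
  · rw [← Matrix.diagonal_zero]
    congr 1
    funext b
    split_ifs with h1 h2
    · exact absurd (h1.symm.trans h2) h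
    · simp
    · simp
    · simp

lemma prj_conj (pos : B → Option κ) (k : Option κ) : (prj pos k)ᴴ = prj pos k := by
  unfold prj
  rw [Matrix.diagonal_conjTranspose]
  congr 1
  funext b
  simp only [Pi.star_apply]
  split_ifs <;> simp

lemma sum_prj (pos : B → Option κ) : ∑ k, prj pos k = 1 := by
  unfold prj
  rw [← Matrix.diagonal_one]
  ext b b'
  rw [Matrix.sum_apply]
  simp only [Matrix.diagonal_apply]
  by_cases h : b = b'
  · simp [h]
  · simp [h]

lemma sum_smul_prj (pos : B → Option κ) (x : κ → ℤˣ) :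
    ∑ k, ((sgo x k : ℝ) : ℂ) • prj pos k = Matrix.diagonal (fun b => ((sgo x (pos b) : ℝ) : ℂ)) := by
  unfold prj
  ext b b'
  rw [Matrix.sum_apply]
  simp only [Matrix.smul_apply, Matrix.diagonal_apply, smul_eq_mul]
  by_cases h : b = b'
  · simp [h]
  · simp [h]

section Build

variable (pos : List W → B → Option κ) (V : List W → Matrix B μ ℂ) (K : List W → W → Matrix μ B ℂ)

/-- The complex step matrices. -/
noncomputable def Ca (h : List W) (w : W) (k : Option κ) : Matrix μ μ ℂ :=
  K h w * prj (pos h) k * V h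

lemma sum_Ca (hK : ∀ h, ∑ w, (K h w)ᴴ * K h w = 1) (h : List W) (k l : Option κ) :
    ∑ w, (Ca pos V K h w k)ᴴ * Ca pos V K h w l
      = if k = l then (V h)ᴴ * prj (pos h) k * V h else 0 := by
  have e : ∀ w, (Ca pos V K h w k)ᴴ * Ca pos V K h w l
      = (V h)ᴴ * prj (pos h) k * ((K h w)ᴴ * K h w) * (prj (pos h) l * V h) := by
    intro w
    unfold Ca
    rw [Matrix.conjTranspose_mul, Matrix.conjTranspose_mul, prj_conj]
    simp only [Matrix.mul_assoc]
  simp_rw [e]
  rw [← Matrix.sum_mul, ← Matrix.mul_sum, hK h, Matrix.mul_one]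
  have e2 : (V h)ᴴ * prj (pos h) k * (prj (pos h) l * V h)
      = (V h)ᴴ * (prj (pos h) k * prj (pos h) l) * V h := by
    simp only [Matrix.mul_assoc]
  rw [e2, prj_mul]
  split_ifs <;> simp

/-- The real process of a quantum algorithm. -/
noncomputable def mkPr (hV : ∀ h, (V h)ᴴ * V h = 1) (hK : ∀ h, ∑ w, (K h w)ᴴ * K h w = 1)
    (v : μ → ℂ) (hv : ∑ i, ‖v i‖ ^ 2 = 1) : Pr κ (μ × Bool) W where
  a := fun h w k => rm (Ca pos V K h w k)
  v := rv v
  hv := by rw [nsq_rv, hv]
  orth := by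
    intro h k l hkl i j
    simp_rw [gram_rm]
    rw [← rho_sum]
    have : ∑ w, ((Ca pos V K h w k)ᴴ * Ca pos V K h w l) i.1 j.1
        = (∑ w, (Ca pos V K h w k)ᴴ * Ca pos V K h w l) i.1 j.1 := by
      rw [Matrix.sum_apply]
    rw [this, sum_Ca pos V K hK, if_neg hkl]
    exact rho_zero _ _
  tot := by
    intro h i j
    simp_rw [gram_rm]
    rw [← rho_one i j]
    have e1 : ∀ k, ∑ w, rho (((Ca pos V K h w k)ᴴ * Ca pos V K h w k) i.1 j.1) i.2 j.2
        = rho (((V h)ᴴ * prj (pos h) k * V h) i.1 j.1) i.2 j.2 := by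
      intro k
      rw [← rho_sum, ← Matrix.sum_apply, sum_Ca pos V K hK, if_pos rfl]
    simp_rw [e1]
    rw [← rho_sum, ← Matrix.sum_apply, ← Matrix.sum_mul, ← Matrix.mul_sum, sum_prj, Matrix.mul_one,
      hV]

lemma mkPr_A (hV : ∀ h, (V h)ᴴ * V h = 1) (hK : ∀ h, ∑ w, (K h w)ᴴ * K h w = 1)
    (v : μ → ℂ) (hv : ∑ i, ‖v i‖ ^ 2 = 1) (A : List W → (κ → ℤˣ) → μ → ℂ)
    (hA0 : ∀ x, A [] x = v)
    (hA : ∀ h w x, A (w :: h) x = K h w *ᵥ (fun b => (Option.elim (pos h b) 1
      (fun i => (((x i : ℤˣ) : ℤ) : ℂ))) * (V h *ᵥ A h x) b))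
    (h : List W) (x : κ → ℤˣ) : (mkPr pos V K hV hK v hv).A h x = rv (A h x) := by
  induction h with
  | nil =>
    rw [hA0]
    rfl
  | cons w h ih =>
    simp only [Pr.A]
    rw [ih]
    have hQ : (mkPr pos V K hV hK v hv).Q h w x
        = rm (K h w * Matrix.diagonal (fun b => ((sgo x (pos h b) : ℝ) : ℂ)) * V h) := by
      rw [← sum_smul_prj, Matrix.mul_sum, Matrix.sum_mul]
      funext i j
      unfold Pr.Q rm
      rw [Matrix.sum_apply, rho_sum]
      refine Finset.sum_congr rfl fun k _ => ?_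
      change sgo x k * rho (Ca pos V K h w k i.1 j.1) i.2 j.2 = _
      rw [Matrix.mul_smul, Matrix.smul_mul, Matrix.smul_apply, smul_eq_mul]
      unfold Ca
      obtain ⟨i, p⟩ := i
      obtain ⟨j, q⟩ := j
      cases p <;> cases q <;> simp [rho]
    rw [hQ, mv_rm, hA]
    congr 1
    rw [← Matrix.mulVec_mulVec, ← Matrix.mulVec_mulVec]
    congr 1
    funext b
    rw [Matrix.mulVec_diagonal]
    congr 1
    cases h2 : pos h b with
    | none => simp [sgo]
    | some k => simp [sgo, sg]

end Build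

end Pool.Agent.H703R2.AA
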