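import Pool.Agent.H703R2.AA.Proc
import Pool.Agent.H746R2.AA.Deg

/-!
# Degree bounds for processes
-/

set_option autoImplicit false
set_option linter.unusedSectionVars false

namespace Pool.Agent.H703R2.AA

open Finset Pool.Agent.H722R2.AA Pool.Agent.H746R2.AA

section Coef

variable {κ ι : Type*} [Fintype κ] [DecidableEq κ] [Fintype ι]

lemma sum_symmDiff (k : κ) (C : Finset κ → ℝ) :
    ∑ S : Finset κ, C (symmDiff {k} S) = ∑ S : Finset κ, C S := by
  refine Finset.sum_nbij' (symmDiff {k}) (symmDiff {k}) (by simp) (by simp) ?_ ?_ ?_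
  · intro S _; simp
  · intro S _; simp
  · intro S _; rfl

lemma mem_symmDiff_self (k : κ) (S : Finset κ) : k ∈ symmDiff {k} S ↔ k ∉ S := by
  simp [Finset.mem_symmDiff]

lemma card_symmDiff_mem (k : κ) (S : Finset κ) (h : k ∈ S) :
    (symmDiff {k} S).card + 1 = S.card := by
  have : symmDiff {k} S = S.erase k := by
    ext j
    simp only [Finset.mem_symmDiff, Finset.mem_singleton, Finset.mem_erase]
    constructor
    · rintro (⟨rfl, h2⟩ | ⟨h1, h2⟩)
      · exact absurd h h2
      · exact ⟨h2, h1⟩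
    · rintro ⟨h1, h2⟩
      exact Or.inr ⟨h2, h1⟩
  rw [this]
  exact Finset.card_erase_add_one h

lemma coef_bound (d : ℕ) (c : Finset κ → ι → ℝ) (hc : ∀ S, d < S.card → ∀ j, c S j = 0)
    (α : Option κ → ι → ℝ) :
    ∑ S : Finset κ, (∑ j, α none j * c S j
        + ∑ k, ∑ j, α (some k) j * c (symmDiff {k} S) j) ^ 2
      ≤ (8 * d + 4) * (∑ k, ∑ j, α k j ^ 2) * ∑ S : Finset κ, ∑ j, c S j ^ 2 := by
  classical
  set C : Finset κ → ℝ := fun S => ∑ j, c S j ^ 2 with hC
  set r : κ → ℝ := fun k => ∑ j, α (some k) j ^ 2 with hr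
  set r0 : ℝ := ∑ j, α none j ^ 2 with hr0
  set R : ℝ := ∑ k, r k with hR
  have hC0 : ∀ S, 0 ≤ C S := fun S => Finset.sum_nonneg fun j _ => sq_nonneg _
  have hr0' : 0 ≤ r0 := Finset.sum_nonneg fun j _ => sq_nonneg _
  have hrk : ∀ k, 0 ≤ r k := fun k => Finset.sum_nonneg fun j _ => sq_nonneg _
  have hR0 : 0 ≤ R := Finset.sum_nonneg fun k _ => hrk k
  have hCd : ∀ S : Finset κ, d < S.card → C S = 0 := by
    intro S hS
    rw [hC]
    exact Finset.sum_eq_zero fun j _ => by rw [hc S hS j]; simp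
  set b : Finset κ → κ → ℝ := fun S k => ∑ j, α (some k) j * c (symmDiff {k} S) j with hb
  have hbk : ∀ S k, b S k ^ 2 ≤ r k * C (symmDiff {k} S) := fun S k =>
    Finset.sum_mul_sq_le_sq_mul_sq _ _ _
  have hα : ∀ S, (∑ j, α none j * c S j) ^ 2 ≤ r0 * C S := fun S =>
    Finset.sum_mul_sq_le_sq_mul_sq _ _ _
  have hβ : ∀ S : Finset κ, (∑ k ∈ S, b S k) ^ 2
      ≤ (d + 1) * ∑ k ∈ S, r k * C (symmDiff {k} S) := by
    intro S
    rcases le_or_gt S.card (d + 1) with h | h
    · calc (∑ k ∈ S, b S k) ^ 2 ≤ S.card * ∑ k ∈ S, b S k ^ 2 := sq_sum_le_card_mul_sum_sq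
        _ ≤ (d + 1) * ∑ k ∈ S, r k * C (symmDiff {k} S) := by
            refine mul_le_mul (by exact_mod_cast h) (Finset.sum_le_sum fun k _ => hbk S k)
              (Finset.sum_nonneg fun k _ => sq_nonneg _) (by positivity)
    · have : ∑ k ∈ S, b S k = 0 := by
        refine Finset.sum_eq_zero fun k hk => ?_
        have h2 := card_symmDiff_mem k S hk
        rw [hb]
        refine Finset.sum_eq_zero fun j _ => ?_
        rw [hc _ (by omega) j, mul_zero]
      rw [this]
      have : 0 ≤ ∑ k ∈ S, r k * C (symmDiff {k} S) :=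
        Finset.sum_nonneg fun k _ => mul_nonneg (hrk k) (hC0 _)
      have hd : (0 : ℝ) ≤ (d : ℝ) + 1 := by positivity
      simpa using mul_nonneg hd this
  have hγ : ∀ S : Finset κ, (∑ k ∈ Sᶜ, b S k) ^ 2 ≤ R * ∑ k ∈ Sᶜ, C (symmDiff {k} S) := by
    intro S
    have e1 : ∑ k ∈ Sᶜ, b S k = ∑ p ∈ Sᶜ ×ˢ (Finset.univ : Finset ι),
        α (some p.1) p.2 * c (symmDiff {p.1} S) p.2 := by
      rw [Finset.sum_product]
    rw [e1]
    refine (Finset.sum_mul_sq_le_sq_mul_sq _ _ _).trans ?_
    rw [Finset.sum_product, Finset.sum_product]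
    refine mul_le_mul_of_nonneg_right ?_
      (Finset.sum_nonneg fun k _ => Finset.sum_nonneg fun j _ => sq_nonneg _)
    exact Finset.sum_le_univ_sum_of_nonneg fun k => hrk k
  have hsum1 : ∑ S : Finset κ, ∑ k ∈ S, r k * C (symmDiff {k} S) ≤ R * ∑ S, C S := by
    calc ∑ S : Finset κ, ∑ k ∈ S, r k * C (symmDiff {k} S)
        ≤ ∑ S : Finset κ, ∑ k, r k * C (symmDiff {k} S) :=
          Finset.sum_le_sum fun S _ => Finset.sum_le_univ_sum_of_nonneg fun k =>
            mul_nonneg (hrk k) (hC0 _)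
      _ = ∑ k, r k * ∑ S, C S := by
          rw [Finset.sum_comm]
          refine Finset.sum_congr rfl fun k _ => ?_
          rw [← Finset.mul_sum, sum_symmDiff]
      _ = R * ∑ S, C S := by rw [← Finset.sum_mul]
  have hsum2 : ∑ S : Finset κ, ∑ k ∈ Sᶜ, C (symmDiff {k} S) ≤ d * ∑ S, C S := by
    calc ∑ S : Finset κ, ∑ k ∈ Sᶜ, C (symmDiff {k} S)
        = ∑ S : Finset κ, ∑ k, (if k ∈ symmDiff {k} S then C (symmDiff {k} S) else 0) := by
          refine Finset.sum_congr rfl fun S _ => ?_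
          rw [← Finset.sum_filter]
          refine Finset.sum_congr ?_ fun _ _ => rfl
          ext k
          simp [Finset.mem_symmDiff]
      _ = ∑ k, ∑ S : Finset κ, (if k ∈ S then C S else 0) := by
          rw [Finset.sum_comm]
          refine Finset.sum_congr rfl fun k _ => ?_
          exact sum_symmDiff k (fun S => if k ∈ S then C S else 0)
      _ = ∑ S : Finset κ, (S.card : ℝ) * C S := by
          rw [Finset.sum_comm]
          refine Finset.sum_congr rfl fun S _ => ?_
          rw [← Finset.sum_filter, Finset.sum_const, nsmul_eq_mul]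
          simp
      _ ≤ ∑ S : Finset κ, (d : ℝ) * C S := by
          refine Finset.sum_le_sum fun S _ => ?_
          rcases le_or_gt S.card d with h | h
          · exact mul_le_mul_of_nonneg_right (by exact_mod_cast h) (hC0 S)
          · rw [hCd S h]; simp
      _ = d * ∑ S, C S := by rw [Finset.mul_sum]
  have hpt : ∀ S : Finset κ, (∑ j, α none j * c S j + ∑ k, b S k) ^ 2
      ≤ 2 * (r0 * C S) + 4 * ((d + 1) * ∑ k ∈ S, r k * C (symmDiff {k} S))
        + 4 * (R * ∑ k ∈ Sᶜ, C (symmDiff {k} S)) := by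
    intro S
    have e : ∑ k, b S k = ∑ k ∈ S, b S k + ∑ k ∈ Sᶜ, b S k :=
      (Finset.sum_add_sum_compl S _).symm
    rw [e]
    have h1 := hα S
    have h2 := hβ S
    have h3 := hγ S
    nlinarith [sq_nonneg (∑ j, α none j * c S j - (∑ k ∈ S, b S k + ∑ k ∈ Sᶜ, b S k)),
      sq_nonneg (∑ k ∈ S, b S k - ∑ k ∈ Sᶜ, b S k)]
  calc ∑ S : Finset κ, (∑ j, α none j * c S j + ∑ k, b S k) ^ 2
      ≤ ∑ S : Finset κ, (2 * (r0 * C S) + 4 * ((d + 1) * ∑ k ∈ S, r k * C (symmDiff {k} S))
        + 4 * (R * ∑ k ∈ Sᶜ, C (symmDiff {k} S))) := Finset.sum_le_sum fun S _ => hpt S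
    _ = 2 * (r0 * ∑ S, C S) + 4 * ((d + 1) * ∑ S : Finset κ, ∑ k ∈ S, r k * C (symmDiff {k} S))
        + 4 * (R * ∑ S : Finset κ, ∑ k ∈ Sᶜ, C (symmDiff {k} S)) := by
        rw [Finset.sum_add_distrib, Finset.sum_add_distrib]
        simp_rw [← Finset.mul_sum]
    _ ≤ 2 * (r0 * ∑ S, C S) + 4 * ((d + 1) * (R * ∑ S, C S)) + 4 * (R * (d * ∑ S, C S)) := by
        gcongr
    _ ≤ (8 * d + 4) * (∑ k, ∑ j, α k j ^ 2) * ∑ S, C S := by
        rw [Fintype.sum_option]
        have hCs : 0 ≤ ∑ S : Finset κ, C S := Finset.sum_nonneg fun S _ => hC0 S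
        change _ ≤ (8 * (d : ℝ) + 4) * (r0 + R) * _
        have hd : (0 : ℝ) ≤ d := by positivity
        have : 0 ≤ (8 * (d : ℝ) + 2) * (r0 * ∑ S, C S) := by positivity
        nlinarith

lemma Deg_sq_diff (d : ℕ) (g : (κ → ℤˣ) → ℝ) (hg : Deg d g) :
    ∑ k, Ex (fun x => (g x - g (fl k x)) ^ 2) ≤ 4 * d * Ex (fun x => g x ^ 2) := by
  have h1 : ∀ k, Ex (fun x => (g x - g (fl k x)) ^ 2) = 4 * Inf g k := by
    intro k
    unfold Inf
    rw [← Ex_mul_left]
    refine Ex_congr fun x => ?_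
    rw [D_fl]
    have := sg_sq x k
    linear_combination (-(g x - g (fl k x)) ^ 2) * this
  simp_rw [h1, ← Finset.mul_sum, Inf_eq]
  rw [Finset.sum_comm, parseval_sq]
  rw [mul_assoc, Finset.mul_sum (a := (d : ℝ))]
  refine mul_le_mul_of_nonneg_left (Finset.sum_le_sum fun S _ => ?_) (by norm_num)
  rw [← Finset.sum_filter, Finset.sum_const, nsmul_eq_mul]
  rcases le_or_gt S.card d with h | h
  · refine mul_le_mul_of_nonneg_right ?_ (sq_nonneg _)
    have : (Finset.univ.filter (fun l => l ∈ S)).card = S.card := by simp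
    rw [this]; exact_mod_cast h
  · rw [hg S h]; simp

end Coef

namespace Pr

variable {κ ι W : Type*} [Fintype κ] [DecidableEq κ] [Fintype ι] [DecidableEq ι] [Fintype W]
variable (P : Pr κ ι W)

lemma Deg_const (c : ℝ) : Deg 0 (fun _ : κ → ℤˣ => c) := by
  intro S hS
  have : fc (fun _ : κ → ℤˣ => c) S = c * Ex (fun x => (∏ i ∈ S, sg x i) * ∏ i ∈ (∅ : Finset κ), sg x i) := by
    rw [fc_eq_Ex, ← Ex_mul_left]
    refine Ex_congr fun x => by simp
  rw [this, Ex_chi_mul, if_neg, mul_zero]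
  rintro rfl
  simp at hS

lemma Deg_A (h : List W) (i : ι) : Deg h.length (fun x => P.A h x i) := by
  induction h generalizing i with
  | nil => exact Deg_const _
  | cons w h ih =>
    have e : (fun x => P.A (w :: h) x i)
        = fun x => ∑ j, ∑ k, P.a h w k i j * (sgo x k * P.A h x j) := by
      funext x
      simp only [A, mv, Q]
      refine Finset.sum_congr rfl fun j _ => ?_
      rw [Finset.sum_mul]
      refine Finset.sum_congr rfl fun k _ => by ring
    rw [e]
    refine Deg.sum _ _ fun j _ => Deg.sum _ _ fun k _ => Deg.mul_left _ ?_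
    cases k with
    | none =>
      simp only [sgo, one_mul]
      exact (ih j).mono (Nat.le_succ _)
    | some k => exact (ih j).sg_mul k

/-- The degree bound. -/
lemma sum_Ex_diff (h : List W) :
    Ex (fun x => ∑ k, nsq (P.A h x - P.A h (fl k x))) ≤ 4 * h.length * Ex (fun x => nsq (P.A h x)) := by
  unfold nsq
  simp only [Pi.sub_apply]
  rw [Ex_sum, Ex_sum]
  simp_rw [Ex_sum]
  rw [Finset.sum_comm, Finset.mul_sum]
  exact Finset.sum_le_sum fun i _ => Deg_sq_diff h.length _ (P.Deg_A h i)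

lemma S_Ex_diff (t : ℕ) :
    Ex (fun x => S t (fun h => ∑ k, nsq (P.A h x - P.A h (fl k x)))) ≤ 4 * t := by
  rw [Ex_S]
  calc S t (fun h => Ex (fun x => ∑ k, nsq (P.A h x - P.A h (fl k x))))
      ≤ S t (fun h => 4 * t * Ex (fun x => nsq (P.A h x))) := by
        refine S_mono' t fun h hh => ?_
        have := P.sum_Ex_diff h
        rw [hh] at this
        exact this
    _ = 4 * t := by
        rw [S_mul_left, ← Ex_S]
        simp_rw [P.S_nsq]
        rw [Ex_const, mul_one]

/-- The total weight of an outcome. -/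
def nn (h : List W) (w : W) : ℝ := ∑ k, hs (P.a h w k)

/-- The weight of a position. -/
def tau (h : List W) (k : Option κ) : ℝ := ∑ w, hs (P.a h w k)

lemma nn_nonneg (h : List W) (w : W) : 0 ≤ P.nn h w := Finset.sum_nonneg fun _ _ => hs_nonneg _

lemma tau_nonneg (h : List W) (k : Option κ) : 0 ≤ P.tau h k :=
  Finset.sum_nonneg fun _ _ => hs_nonneg _

lemma sum_nn (h : List W) : ∑ w, P.nn h w = Fintype.card ι := by
  have h1 : ∀ i, ∑ k, ∑ w, ∑ m, P.a h w k m i * P.a h w k m i = 1 := by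
    intro i; rw [P.tot h i i, if_pos rfl]
  have h2 : (Fintype.card ι : ℝ) = ∑ i : ι, (1 : ℝ) := by simp
  rw [h2, ← Finset.sum_congr rfl fun i _ => h1 i]
  unfold nn hs
  rw [Finset.sum_comm]
  rw [Finset.sum_comm (s := (Finset.univ : Finset ι))]
  refine Finset.sum_congr rfl fun k _ => ?_
  rw [Finset.sum_comm (s := (Finset.univ : Finset ι))]
  refine Finset.sum_congr rfl fun w _ => ?_
  rw [Finset.sum_comm]
  refine Finset.sum_congr rfl fun i _ => Finset.sum_congr rfl fun m _ => by ring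

lemma sum_tau (h : List W) : ∑ k, P.tau h k = Fintype.card ι := by
  rw [← P.sum_nn h]
  unfold tau nn
  rw [Finset.sum_comm]

lemma sum_tau_some (h : List W) : ∑ k : κ, P.tau h (some k) ≤ Fintype.card ι := by
  rw [← P.sum_tau h, Fintype.sum_option]
  have := P.tau_nonneg h none
  linarith

/-- One step increases the mass of a transcript at most by `(8 d + 4) nn`. -/
lemma Ex_step_le (h : List W) (w : W) :
    Ex (fun x => nsq (P.A (w :: h) x)) ≤ (8 * h.length + 4) * P.nn h w * Ex (fun x => nsq (P.A h x)) := by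
  set c : Finset κ → ι → ℝ := fun S j => fc (fun x => P.A h x j) S with hc
  have hcd : ∀ S : Finset κ, h.length < S.card → ∀ j, c S j = 0 := fun S hS j => P.Deg_A h j S hS
  have hpar : Ex (fun x => nsq (P.A h x)) = ∑ S : Finset κ, ∑ j, c S j ^ 2 := by
    unfold nsq
    rw [Ex_sum, Finset.sum_comm]
    exact Finset.sum_congr rfl fun j _ => parseval_sq _
  have hcomp : ∀ i, Ex (fun x => P.A (w :: h) x i ^ 2)
      ≤ (8 * h.length + 4) * (∑ k, ∑ j, P.a h w k i j ^ 2) * ∑ S : Finset κ, ∑ j, c S j ^ 2 := by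
    intro i
    rw [parseval_sq]
    have := coef_bound h.length c hcd (fun k j => P.a h w k i j)
    refine le_trans (le_of_eq ?_) this
    refine Finset.sum_congr rfl fun S _ => ?_
    congr 1
    have e : (fun x => P.A (w :: h) x i)
        = fun x => ∑ j, ∑ k, P.a h w k i j * (sgo x k * P.A h x j) := by
      funext x
      simp only [A, mv, Q]
      refine Finset.sum_congr rfl fun j _ => ?_
      rw [Finset.sum_mul]
      refine Finset.sum_congr rfl fun k _ => by ring
    rw [e, fc_sum]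
    have e2 : ∀ j, fc (fun x => ∑ k, P.a h w k i j * (sgo x k * P.A h x j)) S
        = P.a h w none i j * c S j + ∑ k, P.a h w (some k) i j * c (symmDiff {k} S) j := by
      intro j
      rw [fc_sum, Fintype.sum_option]
      congr 1
      · rw [fc_mul_left]; simp [sgo, hc]
      · refine Finset.sum_congr rfl fun k _ => ?_
        rw [fc_mul_left]
        congr 1
        have := fc_chi_mul {k} (fun x => P.A h x j) S
        simp only [Finset.prod_singleton] at this
        exact this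
    simp_rw [e2, Finset.sum_add_distrib]
    congr 1
    rw [Finset.sum_comm]
  calc Ex (fun x => nsq (P.A (w :: h) x)) = ∑ i, Ex (fun x => P.A (w :: h) x i ^ 2) := by
        unfold nsq; rw [Ex_sum]
    _ ≤ ∑ i, (8 * h.length + 4) * (∑ k, ∑ j, P.a h w k i j ^ 2) * ∑ S : Finset κ, ∑ j, c S j ^ 2 :=
        Finset.sum_le_sum fun i _ => hcomp i
    _ = (8 * h.length + 4) * P.nn h w * Ex (fun x => nsq (P.A h x)) := by
        rw [hpar, ← Finset.sum_mul, ← Finset.mul_sum]
        congr 2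
        unfold nn hs
        rw [Finset.sum_comm]

end Pr

end Pool.Agent.H703R2.AA
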