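import Pool.Agent.H703R2.AA.Four

/-!
# Good pairs of transcripts
-/

set_option autoImplicit false
set_option linter.unusedSectionVars false

namespace Pool.Agent.H703R2.AA

open Finset Pool.Agent.H722R2.AA Pool.Agent.H746R2.AA

namespace Pr

variable {κ ι W : Type*} [Fintype κ] [DecidableEq κ] [Fintype ι] [DecidableEq ι] [Fintype W]
variable (P : Pr κ ι W)

/-- The mass of a transcript. -/
noncomputable def p (h : List W) : ℝ := Ex (fun x => nsq (P.A h x))

lemma p_nonneg (h : List W) : 0 ≤ P.p h := Ex_nonneg fun _ => nsq_nonneg _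

lemma sum_p (h : List W) : ∑ w, P.p (w :: h) = P.p h := by
  unfold p
  rw [← Ex_sum]
  exact Ex_congr fun x => P.iso h x _

lemma S_p (t : ℕ) : S t P.p = 1 := by
  unfold p
  rw [← Ex_S]
  simp_rw [P.S_nsq]
  exact Ex_const 1

/-- The average weight of a position at time `t`. -/
noncomputable def del (t : ℕ) (k : κ) : ℝ := S t (fun h => P.p h * P.tau h (some k))

lemma del_nonneg (t : ℕ) (k : κ) : 0 ≤ P.del t k :=
  S_nonneg t fun h => mul_nonneg (P.p_nonneg h) (P.tau_nonneg h _)

lemma sum_del (t : ℕ) : ∑ k, P.del t k ≤ Fintype.card ι := by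
  unfold del
  rw [← S_sum]
  calc S t (fun h => ∑ k, P.p h * P.tau h (some k))
      ≤ S t (fun h => (Fintype.card ι : ℝ) * P.p h) := by
        refine S_mono t fun h => ?_
        rw [← Finset.mul_sum, mul_comm]
        exact mul_le_mul_of_nonneg_right (P.sum_tau_some h) (P.p_nonneg h)
    _ = Fintype.card ι := by rw [S_mul_left, S_p, mul_one]

/-- The overlap of two steps. -/
def Ov (h : List W) (w : W) (h' : List W) (w' : W) (p q : ι × ι) : ℝ :=
  ∑ k, P.a h w (some k) p.1 q.1 * P.a h' w' (some k) p.2 q.2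

/-- The collision weight of two steps. -/
def coll (h : List W) (w : W) (h' : List W) (w' : W) : ℝ :=
  ∑ k, hs (P.a h w (some k)) * hs (P.a h' w' (some k))

lemma coll_nonneg (h : List W) (w : W) (h' : List W) (w' : W) : 0 ≤ P.coll h w h' w' :=
  Finset.sum_nonneg fun _ _ => mul_nonneg (hs_nonneg _) (hs_nonneg _)

lemma sum_coll (h h' : List W) :
    ∑ w, ∑ w', P.coll h w h' w' = ∑ k, P.tau h (some k) * P.tau h' (some k) := by
  unfold coll tau
  simp_rw [Finset.sum_mul_sum]
  calc ∑ w, ∑ w', ∑ k, hs (P.a h w (some k)) * hs (P.a h' w' (some k))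
      = ∑ w, ∑ k, ∑ w', hs (P.a h w (some k)) * hs (P.a h' w' (some k)) := by
        refine Finset.sum_congr rfl fun w _ => ?_
        rw [Finset.sum_comm]
    _ = _ := by rw [Finset.sum_comm]

lemma orth_diag (h : List W) (k l : Option κ) (hkl : k ≠ l) :
    ∑ w, ∑ i, ∑ j, P.a h w k i j * P.a h w l i j = 0 := by
  have : ∀ w, ∑ i, ∑ j, P.a h w k i j * P.a h w l i j
      = ∑ j, ∑ i, P.a h w k i j * P.a h w l i j := fun w => Finset.sum_comm
  simp_rw [this]
  rw [Finset.sum_comm]
  exact Finset.sum_eq_zero fun j _ => P.orth h k l hkl j j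

lemma sum_Ov (h h' : List W) :
    ∑ w, ∑ w', hs (P.Ov h w h' w') = ∑ k, P.tau h (some k) * P.tau h' (some k) := by
  have e1 : ∀ w w', hs (P.Ov h w h' w')
      = ∑ k : κ, ∑ l : κ, (∑ i, ∑ j, P.a h w (some k) i j * P.a h w (some l) i j)
          * (∑ i, ∑ j, P.a h' w' (some k) i j * P.a h' w' (some l) i j) := by
    intro w w'
    unfold hs Ov
    have : ∀ p q : ι × ι, (∑ k, P.a h w (some k) p.1 q.1 * P.a h' w' (some k) p.2 q.2) ^ 2
        = ∑ k, ∑ l, (P.a h w (some k) p.1 q.1 * P.a h w (some l) p.1 q.1)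
            * (P.a h' w' (some k) p.2 q.2 * P.a h' w' (some l) p.2 q.2) := by
      intro p q
      rw [sq, Finset.sum_mul_sum]
      refine Finset.sum_congr rfl fun k _ => Finset.sum_congr rfl fun l _ => by ring
    simp_rw [this]
    calc ∑ p : ι × ι, ∑ q : ι × ι, ∑ k, ∑ l, (P.a h w (some k) p.1 q.1 * P.a h w (some l) p.1 q.1)
            * (P.a h' w' (some k) p.2 q.2 * P.a h' w' (some l) p.2 q.2)
        = ∑ r : (ι × ι) × (ι × ι), ∑ k, ∑ l,
            (P.a h w (some k) r.1.1 r.2.1 * P.a h w (some l) r.1.1 r.2.1)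
            * (P.a h' w' (some k) r.1.2 r.2.2 * P.a h' w' (some l) r.1.2 r.2.2) := by
          exact (Fintype.sum_prod_type (fun r : (ι × ι) × (ι × ι) => ∑ k, ∑ l,
            (P.a h w (some k) r.1.1 r.2.1 * P.a h w (some l) r.1.1 r.2.1)
            * (P.a h' w' (some k) r.1.2 r.2.2 * P.a h' w' (some l) r.1.2 r.2.2))).symm
      _ = ∑ k, ∑ l, ∑ r : (ι × ι) × (ι × ι),
            (P.a h w (some k) r.1.1 r.2.1 * P.a h w (some l) r.1.1 r.2.1)
            * (P.a h' w' (some k) r.1.2 r.2.2 * P.a h' w' (some l) r.1.2 r.2.2) := by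
          rw [Finset.sum_comm]
          refine Finset.sum_congr rfl fun k _ => ?_
          rw [Finset.sum_comm]
      _ = _ := by
          refine Finset.sum_congr rfl fun k _ => Finset.sum_congr rfl fun l _ => ?_
          rw [Fintype.sum_prod_type, Fintype.sum_prod_type]
          rw [Finset.sum_mul_sum]
          refine Finset.sum_congr rfl fun i _ => Finset.sum_congr rfl fun i' _ => ?_
          rw [Fintype.sum_prod_type, Finset.sum_mul_sum]
  simp_rw [e1]
  have e2 : ∑ w, ∑ w', ∑ k : κ, ∑ l : κ,
      (∑ i, ∑ j, P.a h w (some k) i j * P.a h w (some l) i j)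
          * (∑ i, ∑ j, P.a h' w' (some k) i j * P.a h' w' (some l) i j)
      = ∑ k : κ, ∑ l : κ, (∑ w, ∑ i, ∑ j, P.a h w (some k) i j * P.a h w (some l) i j)
          * (∑ w', ∑ i, ∑ j, P.a h' w' (some k) i j * P.a h' w' (some l) i j) := by
    calc _ = ∑ r : W × W, ∑ k : κ, ∑ l : κ,
          (∑ i, ∑ j, P.a h r.1 (some k) i j * P.a h r.1 (some l) i j)
          * (∑ i, ∑ j, P.a h' r.2 (some k) i j * P.a h' r.2 (some l) i j) := by
            rw [Fintype.sum_prod_type]
      _ = ∑ k : κ, ∑ l : κ, ∑ r : W × W,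
          (∑ i, ∑ j, P.a h r.1 (some k) i j * P.a h r.1 (some l) i j)
          * (∑ i, ∑ j, P.a h' r.2 (some k) i j * P.a h' r.2 (some l) i j) := by
            rw [Finset.sum_comm]
            refine Finset.sum_congr rfl fun k _ => ?_
            rw [Finset.sum_comm]
      _ = _ := by
            refine Finset.sum_congr rfl fun k _ => Finset.sum_congr rfl fun l _ => ?_
            rw [Fintype.sum_prod_type, Finset.sum_mul_sum]
  rw [e2]
  refine Finset.sum_congr rfl fun k _ => ?_
  rw [Finset.sum_eq_single k]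
  · unfold tau hs
    simp_rw [sq]
  · intro l _ hl
    rw [P.orth_diag h (some k) (some l) (by simpa using Ne.symm hl), zero_mul]
  · intro hk
    exact absurd (Finset.mem_univ k) hk

/-- The condition for a good pair of steps. -/
def gc (ε : ℝ) (h : List W) (w : W) (h' : List W) (w' : W) : Prop :=
  hs (P.Ov h w h' w') ≤ ε * (P.nn h w * P.nn h' w') ∧
  P.coll h w h' w' ≤ ε * (P.nn h w * P.nn h' w')

/-- All steps of the second history are good for the given step. -/
def good1 (ε : ℝ) (h : List W) (w : W) : List W → Prop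
  | [] => True
  | w' :: h' => P.gc ε h w h' w' ∧ good1 ε h w h'

/-- Good pairs of histories. -/
def good (ε : ℝ) : List W → List W → Prop
  | [], _ => True
  | w :: h, b => P.good1 ε h w b ∧ good ε h b

lemma good_right (ε : ℝ) (a : List W) (w' : W) (b : List W) (h : P.good ε a (w' :: b)) :
    P.good ε a b := by
  induction a with
  | nil => trivial
  | cons w a ih => exact ⟨h.1.2, ih h.2⟩

/-- The accumulated sum over the steps of a history. -/
def acc (c : List W → W → ℝ) : List W → ℝ
  | [] => 0
  | w :: h => c h w + acc c h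

open Classical in
/-- Indicator. -/
noncomputable def ind (q : Prop) : ℝ := if q then 1 else 0

lemma ind_nonneg (q : Prop) : 0 ≤ ind q := by unfold ind; split_ifs <;> norm_num

lemma ind_le_one (q : Prop) : ind q ≤ 1 := by unfold ind; split_ifs <;> norm_num

lemma ind_mono {q q' : Prop} (h : q → q') : ind q ≤ ind q' := by
  unfold ind
  split_ifs with h1 h2
  · exact le_rfl
  · exact absurd (h h1) h2
  · norm_num
  · exact le_rfl

lemma ind_not (q : Prop) : ind (¬ q) = 1 - ind q := by
  unfold ind
  split_ifs <;> norm_num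

lemma ind_sq (q : Prop) : ind q * ind q = ind q := by
  unfold ind
  split_ifs <;> norm_num

lemma not_good1_le (ε : ℝ) (h : List W) (w : W) (b : List W) :
    ind (¬ P.good1 ε h w b) ≤ acc (fun h' w' => ind (¬ P.gc ε h w h' w')) b := by
  induction b with
  | nil => simp [good1, acc, ind]
  | cons w' b ih =>
    simp only [good1, acc]
    by_cases hq : P.gc ε h w b w'
    · have : ind (¬ (P.gc ε h w b w' ∧ P.good1 ε h w b)) ≤ ind (¬ P.good1 ε h w b) :=
        ind_mono fun h1 h2 => h1 ⟨hq, h2⟩
      have h0 := ind_nonneg (¬ P.gc ε h w b w')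
      linarith
    · have h1 : ind (¬ P.gc ε h w b w') = 1 := by unfold ind; rw [if_pos hq]
      have h2 := ind_le_one (¬ (P.gc ε h w b w' ∧ P.good1 ε h w b))
      have h3 : 0 ≤ acc (fun h' w' => ind (¬ P.gc ε h w h' w')) b :=
        (ind_nonneg _).trans ih
      linarith

lemma not_good_le (ε : ℝ) (a b : List W) :
    ind (¬ P.good ε a b)
      ≤ acc (fun h w => acc (fun h' w' => ind (¬ P.gc ε h w h' w')) b) a := by
  induction a with
  | nil => simp [good, acc, ind]
  | cons w a ih =>
    simp only [good, acc]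
    have h1 := P.not_good1_le ε a w b
    have h2 : ind (¬ (P.good1 ε a w b ∧ P.good ε a b))
        ≤ ind (¬ P.good1 ε a w b) + ind (¬ P.good ε a b) := by
      by_cases hq : P.good1 ε a w b
      · have : ind (¬ (P.good1 ε a w b ∧ P.good ε a b)) ≤ ind (¬ P.good ε a b) :=
          ind_mono fun h1 h2 => h1 ⟨hq, h2⟩
        have h0 := ind_nonneg (¬ P.good1 ε a w b)
        linarith
      · have h1 : ind (¬ P.good1 ε a w b) = 1 := by unfold ind; rw [if_pos hq]
        have h2 := ind_le_one (¬ (P.good1 ε a w b ∧ P.good ε a b))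
        have h3 := ind_nonneg (¬ P.good ε a b)
        linarith
    linarith

lemma S_acc (T : ℕ) (c : List W → W → ℝ) :
    S T (fun a => acc c a * P.p a) = ∑ s ∈ Finset.range T, S s (fun h => ∑ w, c h w * P.p (w :: h)) := by
  induction T with
  | zero => simp [S, acc]
  | succ T ih =>
    rw [Finset.sum_range_succ, ← ih, ← S_add]
    simp only [S]
    refine S_congr' T fun h _ => ?_
    simp only [acc]
    simp_rw [add_mul]
    rw [Finset.sum_add_distrib, ← Finset.mul_sum, P.sum_p, add_comm]

/-- The probability, for independent inputs, of a bad pair of transcripts. -/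
lemma bad_le (T : ℕ) (ε θ : ℝ) (hε : 0 < ε) (hθ : 0 ≤ θ)
    (hdel : ∀ t < T, ∀ k, P.del t k ≤ θ) :
    S T (fun a => S T (fun b => ind (¬ P.good ε a b) * (P.p a * P.p b)))
      ≤ 128 * (T : ℝ) ^ 4 * θ * Fintype.card ι / ε := by
  set B : List W → W → List W → W → ℝ := fun h w h' w' => ind (¬ P.gc ε h w h' w') with hB
  have step1 : S T (fun a => S T (fun b => ind (¬ P.good ε a b) * (P.p a * P.p b)))
      ≤ S T (fun a => S T (fun b => acc (fun h w => acc (B h w) b) a * (P.p a * P.p b))) := by
    refine S_mono T fun a => S_mono T fun b => ?_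
    exact mul_le_mul_of_nonneg_right (P.not_good_le ε a b) (mul_nonneg (P.p_nonneg a) (P.p_nonneg b))
  have step2 : S T (fun a => S T (fun b => acc (fun h w => acc (B h w) b) a * (P.p a * P.p b)))
      = ∑ s ∈ Finset.range T, ∑ t ∈ Finset.range T,
        S s (fun h => ∑ w, P.p (w :: h) * S t (fun h' => ∑ w', B h w h' w' * P.p (w' :: h'))) := by
    rw [S_S_comm]
    have e1 : ∀ b : List W, S T (fun a => acc (fun h w => acc (B h w) b) a * (P.p a * P.p b))
        = ∑ s ∈ Finset.range T, S s (fun h => ∑ w, P.p (w :: h) * (acc (B h w) b * P.p b)) := by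
      intro b
      have : ∀ a : List W, acc (fun h w => acc (B h w) b) a * (P.p a * P.p b)
          = P.p b * (acc (fun h w => acc (B h w) b) a * P.p a) := fun a => by ring
      simp_rw [this]
      rw [S_mul_left, P.S_acc, Finset.mul_sum]
      refine Finset.sum_congr rfl fun s _ => ?_
      rw [← S_mul_left]
      refine S_congr' s fun h _ => ?_
      rw [Finset.mul_sum]
      refine Finset.sum_congr rfl fun w _ => by ring
    simp_rw [e1]
    rw [S_sum]
    refine Finset.sum_congr rfl fun s _ => ?_
    rw [S_S_comm]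
    rw [← S_sum]
    refine S_congr' s fun h _ => ?_
    rw [S_sum]
    have e2 : ∀ w, S T (fun b => P.p (w :: h) * (acc (B h w) b * P.p b))
        = ∑ t ∈ Finset.range T, P.p (w :: h) * S t (fun h' => ∑ w', B h w h' w' * P.p (w' :: h')) := by
      intro w
      rw [S_mul_left, P.S_acc, Finset.mul_sum]
    simp_rw [e2]
    rw [Finset.sum_comm]
  have step3 : ∀ s ∈ Finset.range T, ∀ t ∈ Finset.range T,
      S s (fun h => ∑ w, P.p (w :: h) * S t (fun h' => ∑ w', B h w h' w' * P.p (w' :: h')))
        ≤ 128 * (T : ℝ) ^ 2 * θ * Fintype.card ι / ε := by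
    intro s hsT t htT
    rw [Finset.mem_range] at hsT htT
    have hp : ∀ (h : List W) (r : ℕ), h.length = r → r < T → ∀ w, P.p (w :: h) ≤ 8 * T * P.nn h w * P.p h := by
      intro h r hr hrT w
      refine (P.Ex_step_le h w).trans ?_
      refine mul_le_mul_of_nonneg_right ?_ (P.p_nonneg h)
      refine mul_le_mul_of_nonneg_right ?_ (P.nn_nonneg h w)
      have : (h.length : ℝ) + 1 ≤ T := by rw [hr]; exact_mod_cast hrT
      linarith
    have e1 : ∀ h : List W, ∑ w, P.p (w :: h) * S t (fun h' => ∑ w', B h w h' w' * P.p (w' :: h'))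
        = S t (fun h' => ∑ w, ∑ w', B h w h' w' * (P.p (w :: h) * P.p (w' :: h'))) := by
      intro h
      rw [S_sum]
      refine Finset.sum_congr rfl fun w _ => ?_
      rw [← S_mul_left]
      refine S_congr' t fun h' _ => ?_
      rw [Finset.mul_sum]
      refine Finset.sum_congr rfl fun w' _ => by ring
    simp_rw [e1]
    have e2 : ∀ h h' : List W, h.length = s → h'.length = t →
        ∑ w, ∑ w', B h w h' w' * (P.p (w :: h) * P.p (w' :: h'))
          ≤ 128 * (T : ℝ) ^ 2 / ε * ∑ k, (P.p h * P.tau h (some k)) * (P.p h' * P.tau h' (some k)) := by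
      intro h h' hh hh'
      have e3 : ∀ w w', B h w h' w' * (P.p (w :: h) * P.p (w' :: h'))
          ≤ 64 * (T : ℝ) ^ 2 / ε * (P.p h * P.p h') * (hs (P.Ov h w h' w') + P.coll h w h' w') := by
        intro w w'
        have h1 := hp h s hh hsT w
        have h2 := hp h' t hh' htT w'
        have h3 : P.p (w :: h) * P.p (w' :: h')
            ≤ (8 * T * P.nn h w * P.p h) * (8 * T * P.nn h' w' * P.p h') :=
          mul_le_mul h1 h2 (P.p_nonneg _) ((P.p_nonneg _).trans h1)
        have h4 : B h w h' w' * (ε * (P.nn h w * P.nn h' w'))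
            ≤ hs (P.Ov h w h' w') + P.coll h w h' w' := by
          have hO := hs_nonneg (P.Ov h w h' w')
          have hC := P.coll_nonneg h w h' w'
          show ind (¬ P.gc ε h w h' w') * _ ≤ _
          unfold ind
          split_ifs with hq
          · rw [zero_mul]; linarith
          · rw [one_mul]
            unfold gc at hq
            rw [not_and_or, not_le, not_le] at hq
            rcases hq with hq | hq <;> linarith
        have hpp : 0 ≤ P.p h * P.p h' := mul_nonneg (P.p_nonneg h) (P.p_nonneg h')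
        calc B h w h' w' * (P.p (w :: h) * P.p (w' :: h'))
            ≤ B h w h' w' * ((8 * T * P.nn h w * P.p h) * (8 * T * P.nn h' w' * P.p h')) :=
              mul_le_mul_of_nonneg_left h3 (ind_nonneg _)
          _ = 64 * (T : ℝ) ^ 2 / ε * (P.p h * P.p h') * (B h w h' w' * (ε * (P.nn h w * P.nn h' w'))) := by
              field_simp; ring
          _ ≤ _ := mul_le_mul_of_nonneg_left h4 (by positivity)
      calc ∑ w, ∑ w', B h w h' w' * (P.p (w :: h) * P.p (w' :: h'))
          ≤ ∑ w, ∑ w', 64 * (T : ℝ) ^ 2 / ε * (P.p h * P.p h')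
              * (hs (P.Ov h w h' w') + P.coll h w h' w') :=
            Finset.sum_le_sum fun w _ => Finset.sum_le_sum fun w' _ => e3 w w'
        _ = 64 * (T : ℝ) ^ 2 / ε * (P.p h * P.p h')
              * ∑ w, ∑ w', (hs (P.Ov h w h' w') + P.coll h w h' w') := by
            simp_rw [← Finset.mul_sum]
        _ = _ := by
            simp_rw [Finset.sum_add_distrib]
            rw [P.sum_Ov, P.sum_coll]
            have : ∑ k, (P.p h * P.tau h (some k)) * (P.p h' * P.tau h' (some k))
                = P.p h * P.p h' * ∑ k, P.tau h (some k) * P.tau h' (some k) := by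
              rw [Finset.mul_sum]
              refine Finset.sum_congr rfl fun k _ => by ring
            rw [this]; ring
    calc S s (fun h => S t (fun h' => ∑ w, ∑ w', B h w h' w' * (P.p (w :: h) * P.p (w' :: h'))))
        ≤ S s (fun h => S t (fun h' => 128 * (T : ℝ) ^ 2 / ε
            * ∑ k, (P.p h * P.tau h (some k)) * (P.p h' * P.tau h' (some k)))) :=
          S_mono' s fun h hh => S_mono' t fun h' hh' => e2 h h' hh hh'
      _ = 128 * (T : ℝ) ^ 2 / ε * ∑ k, P.del s k * P.del t k := by
          simp_rw [S_mul_left, S_sum, S_mul_left]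
          congr 1
          refine Finset.sum_congr rfl fun k _ => ?_
          unfold del
          have : ∀ h : List W, P.p h * P.tau h (some k) * S t (fun h' => P.p h' * P.tau h' (some k))
              = S t (fun h' => P.p h' * P.tau h' (some k)) * (P.p h * P.tau h (some k)) :=
            fun h => mul_comm _ _
          simp_rw [this]
          rw [S_mul_left, mul_comm]
      _ ≤ 128 * (T : ℝ) ^ 2 / ε * ∑ k, P.del s k * θ := by
          refine mul_le_mul_of_nonneg_left (Finset.sum_le_sum fun k _ => ?_) (by positivity)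
          exact mul_le_mul_of_nonneg_left (hdel t htT k) (P.del_nonneg s k)
      _ ≤ 128 * (T : ℝ) ^ 2 / ε * (Fintype.card ι * θ) := by
          rw [← Finset.sum_mul]
          refine mul_le_mul_of_nonneg_left ?_ (by positivity)
          exact mul_le_mul_of_nonneg_right (P.sum_del s) hθ
      _ = _ := by ring
  rw [step2] at step1
  refine step1.trans ?_
  calc ∑ s ∈ Finset.range T, ∑ t ∈ Finset.range T,
        S s (fun h => ∑ w, P.p (w :: h) * S t (fun h' => ∑ w', B h w h' w' * P.p (w' :: h')))
      ≤ ∑ _s ∈ Finset.range T, ∑ _t ∈ Finset.range T, 128 * (T : ℝ) ^ 2 * θ * Fintype.card ι / ε :=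
        Finset.sum_le_sum fun s hs => Finset.sum_le_sum fun t ht => step3 s hs t ht
    _ = _ := by
        simp only [Finset.sum_const, Finset.card_range, nsmul_eq_mul]
        ring

end Pr

end Pool.Agent.H703R2.AA
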