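import Pool.Agent.H703R2.AA.Good

/-!
# The second moment bounds for good pairs of transcripts
-/

set_option autoImplicit false
set_option linter.unusedSectionVars false

namespace Pool.Agent.H703R2.AA

open Finset Pool.Agent.H722R2.AA Pool.Agent.H746R2.AA

section DoubleSums

variable {W : Type*} [Fintype W]

/-- Double history sums. -/
noncomputable def SS (s t : ℕ) (F : List W → List W → ℝ) : ℝ := S s (fun a => S t (fun b => F a b))

lemma SS_add (s t : ℕ) (F G : List W → List W → ℝ) :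
    SS s t (fun a b => F a b + G a b) = SS s t F + SS s t G := by
  unfold SS
  simp_rw [S_add]

lemma SS_mul_left (s t : ℕ) (c : ℝ) (F : List W → List W → ℝ) :
    SS s t (fun a b => c * F a b) = c * SS s t F := by
  unfold SS
  simp_rw [S_mul_left]

lemma SS_mono' (s t : ℕ) {F G : List W → List W → ℝ}
    (H : ∀ a b : List W, a.length = s → b.length = t → F a b ≤ G a b) : SS s t F ≤ SS s t G :=
  S_mono' s fun a ha => S_mono' t fun b hb => H a b ha hb

lemma SS_mono (s t : ℕ) {F G : List W → List W → ℝ}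
    (H : ∀ a b : List W, F a b ≤ G a b) : SS s t F ≤ SS s t G :=
  S_mono s fun a => S_mono t fun b => H a b

lemma SS_congr' (s t : ℕ) {F G : List W → List W → ℝ}
    (H : ∀ a b : List W, a.length = s → b.length = t → F a b = G a b) : SS s t F = SS s t G :=
  S_congr' s fun a ha => S_congr' t fun b hb => H a b ha hb

lemma SS_nonneg (s t : ℕ) {F : List W → List W → ℝ} (H : ∀ a b : List W, 0 ≤ F a b) :
    0 ≤ SS s t F := S_nonneg s fun a => S_nonneg t fun b => H a b

lemma SS_abs (s t : ℕ) (F : List W → List W → ℝ) : |SS s t F| ≤ SS s t (fun a b => |F a b|) :=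
  (S_abs s _).trans (S_mono s fun _ => S_abs t _)

lemma SS_sum (s t : ℕ) {τ : Type*} (A : Finset τ) (F : τ → List W → List W → ℝ) :
    SS s t (fun a b => ∑ c ∈ A, F c a b) = ∑ c ∈ A, SS s t (F c) := by
  unfold SS
  simp_rw [S_sum]

lemma SS_mul (s t : ℕ) (u v : List W → ℝ) : SS s t (fun a b => u a * v b) = S s u * S t v := by
  unfold SS
  simp_rw [S_mul_left]
  have : ∀ a : List W, u a * S t v = S t v * u a := fun a => mul_comm _ _
  simp_rw [this]
  rw [S_mul_left, mul_comm]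

lemma SS_succ (s t : ℕ) (F : List W → List W → ℝ) :
    SS (s + 1) (t + 1) F = SS s t (fun h h' => ∑ w, ∑ w', F (w :: h) (w' :: h')) := by
  unfold SS
  simp only [S]
  refine S_congr' s fun h _ => ?_
  rw [S_sum]

variable {κ : Type*} [Fintype κ] [DecidableEq κ]

lemma PE_SS (r : ℝ) (s t : ℕ) (F : List W → List W → (κ → ℤˣ) → (κ → ℤˣ) → ℝ) :
    PE r (fun x y => SS s t (fun a b => F a b x y)) = SS s t (fun a b => PE r (F a b)) := by
  unfold SS
  rw [PE_S r s (fun a x y => S t (fun b => F a b x y))]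
  refine S_congr' s fun a _ => ?_
  rw [PE_S]

lemma PE_abs {r : ℝ} (h0 : 0 ≤ r) (h1 : r ≤ 1) (H : (κ → ℤˣ) → (κ → ℤˣ) → ℝ) :
    |PE r H| ≤ PE r (fun x y => |H x y|) := by
  rw [abs_le]
  constructor
  · have : -PE r (fun x y => |H x y|) = PE r (fun x y => -1 * |H x y|) := by
      rw [PE_mul_left]; ring
    rw [this]
    exact PE_mono h0 h1 fun x y => by have := neg_abs_le (H x y); linarith
  · exact PE_mono h0 h1 fun x y => le_abs_self _

end DoubleSums

section Kron

variable {ι : Type*} [Fintype ι]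

/-- The tensor product of matrices. -/
def kron (m m' : ι → ι → ℝ) : ι × ι → ι × ι → ℝ := fun p q => m p.1 q.1 * m' p.2 q.2

lemma mv_kron (m m' : ι → ι → ℝ) (u v : ι → ℝ) : mv (kron m m') (tn u v) = tn (mv m u) (mv m' v) := by
  funext p
  simp only [mv, kron, tn]
  rw [Fintype.sum_prod_type, Finset.sum_mul_sum]
  refine Finset.sum_congr rfl fun i _ => Finset.sum_congr rfl fun j _ => by ring

lemma hs_kron (m m' : ι → ι → ℝ) : hs (kron m m') = hs m * hs m' := by
  unfold hs kron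
  rw [Fintype.sum_prod_type, Finset.sum_mul_sum]
  refine Finset.sum_congr rfl fun i _ => Finset.sum_congr rfl fun j _ => ?_
  rw [Fintype.sum_prod_type, Finset.sum_mul_sum]
  refine Finset.sum_congr rfl fun i _ => Finset.sum_congr rfl fun j _ => by ring

lemma nsq_sum_mv_le {κ : Type*} [Fintype κ] (M : κ → ι → ι → ℝ) (R : κ → ι → ℝ) :
    nsq (∑ k, mv (M k) (R k)) ≤ (∑ k, hs (M k)) * ∑ k, nsq (R k) := by
  have h1 : ∀ i, (∑ k, mv (M k) (R k)) i ^ 2
      ≤ (∑ k, ∑ j, M k i j ^ 2) * ∑ k, nsq (R k) := by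
    intro i
    have e : (∑ k, mv (M k) (R k)) i = ∑ p : κ × ι, M p.1 i p.2 * R p.1 p.2 := by
      rw [Fintype.sum_prod_type, Finset.sum_apply]
      rfl
    rw [e]
    refine (Finset.sum_mul_sq_le_sq_mul_sq _ _ _).trans (le_of_eq ?_)
    rw [Fintype.sum_prod_type, Fintype.sum_prod_type]
    rfl
  calc nsq (∑ k, mv (M k) (R k)) = ∑ i, (∑ k, mv (M k) (R k)) i ^ 2 := rfl
    _ ≤ ∑ i, (∑ k, ∑ j, M k i j ^ 2) * ∑ k, nsq (R k) := Finset.sum_le_sum fun i _ => h1 i
    _ = _ := by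
        rw [← Finset.sum_mul, Finset.sum_comm]
        rfl

lemma tn_sub_left (u u' v : ι → ℝ) : tn (u - u') v = tn u v - tn u' v := by
  funext p
  simp only [tn, Pi.sub_apply]; ring

lemma tn_sub_right (u v v' : ι → ℝ) : tn u (v - v') = tn u v - tn u v' := by
  funext p
  simp only [tn, Pi.sub_apply]; ring

lemma nsq_sum_tn {κ : Type*} [Fintype κ] (u v : κ → ι → ℝ) :
    nsq (∑ k, tn (u k) (v k)) = ∑ j, nsq (∑ k, v k j • u k) := by
  unfold nsq
  rw [Fintype.sum_prod_type, Finset.sum_comm]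
  refine Finset.sum_congr rfl fun j _ => Finset.sum_congr rfl fun i _ => ?_
  rw [Finset.sum_apply, Finset.sum_apply]
  congr 1
  refine Finset.sum_congr rfl fun k _ => ?_
  simp only [tn, Pi.smul_apply, smul_eq_mul]; ring

lemma nsq_sum_tn_comm {κ : Type*} [Fintype κ] (u v : κ → ι → ℝ) :
    nsq (∑ k, tn (u k) (v k)) = nsq (∑ k, tn (v k) (u k)) := by
  unfold nsq
  rw [Fintype.sum_prod_type, Fintype.sum_prod_type, Finset.sum_comm]
  refine Finset.sum_congr rfl fun j _ => Finset.sum_congr rfl fun i _ => ?_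
  rw [Finset.sum_apply, Finset.sum_apply]
  congr 1
  refine Finset.sum_congr rfl fun k _ => ?_
  simp only [tn]; ring

end Kron

namespace Pr

variable {κ ι W : Type*} [Fintype κ] [DecidableEq κ] [Fintype ι] [DecidableEq ι] [Fintype W]
variable (P : Pr κ ι W)

lemma N_tn_left (h : List W) (x : κ → ℤˣ) (u v : κ → ι → ℝ) :
    ∑ w, nsq (∑ k, tn (mv (P.Q h w x) (u k)) (v k)) = nsq (∑ k, tn (u k) (v k)) := by
  simp_rw [nsq_sum_tn]
  rw [Finset.sum_comm]
  refine Finset.sum_congr rfl fun j _ => ?_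
  have : ∀ w, (∑ k, v k j • mv (P.Q h w x) (u k)) = mv (P.Q h w x) (∑ k, v k j • u k) := by
    intro w
    rw [mv_sum]
    exact Finset.sum_congr rfl fun k _ => (mv_smul _ _ _).symm
  simp_rw [this]
  exact P.iso h x _

lemma N_tn_right (h : List W) (x : κ → ℤˣ) (u v : κ → ι → ℝ) :
    ∑ w, nsq (∑ k, tn (u k) (mv (P.Q h w x) (v k))) = nsq (∑ k, tn (u k) (v k)) := by
  rw [nsq_sum_tn_comm u v, ← P.N_tn_left h x v u]
  refine Finset.sum_congr rfl fun w _ => ?_
  rw [nsq_sum_tn_comm]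

lemma N_pr_left (h : List W) (x : κ → ℤˣ) (u v : κ → ι → ℝ) :
    ∑ w, ∑ k, nsq (mv (P.Q h w x) (u k)) * nsq (v k) = ∑ k, nsq (u k) * nsq (v k) := by
  rw [Finset.sum_comm]
  refine Finset.sum_congr rfl fun k _ => ?_
  rw [← Finset.sum_mul, P.iso h x]

lemma N_pr_right (h : List W) (x : κ → ℤˣ) (u v : κ → ι → ℝ) :
    ∑ w, ∑ k, nsq (u k) * nsq (mv (P.Q h w x) (v k)) = ∑ k, nsq (u k) * nsq (v k) := by
  rw [Finset.sum_comm]
  refine Finset.sum_congr rfl fun k _ => ?_
  rw [← Finset.mul_sum, P.iso h x]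

lemma z_cons (s : ℕ) (k : κ) (h : List W) (w : W) (x : κ → ℤˣ) (hh : h.length ≠ s) :
    P.z s k (w :: h) x = mv (P.Q h w x) (P.z s k h x) := by
  simp only [z]
  rw [if_neg hh]

lemma z_top (s : ℕ) (k : κ) (h : List W) (w : W) (x : κ → ℤˣ) (hh : h.length = s) :
    P.z s k (w :: h) x = mv (P.a h w (some k)) (P.A h (fl k x)) := by
  simp only [z]
  rw [if_pos hh]

/-- Peeling. -/
lemma peel2 (N : (κ → ι → ℝ) → (κ → ι → ℝ) → ℝ) (N0 : ∀ u v, 0 ≤ N u v)
    (N1 : ∀ h x u v, ∑ w, N (fun k => mv (P.Q h w x) (u k)) v = N u v)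
    (N2 : ∀ h x u v, ∑ w, N u (fun k => mv (P.Q h w x) (v k)) = N u v)
    (ε : ℝ) (s t T : ℕ) (hsT : s < T) (htT : t < T) (x y : κ → ℤˣ) :
    SS T T (fun a b => ind (P.good ε a b) * N (fun k => P.z s k a x) (fun k => P.z t k b y))
      ≤ SS (s + 1) (t + 1)
        (fun a b => ind (P.good ε a b) * N (fun k => P.z s k a x) (fun k => P.z t k b y)) := by
  unfold SS
  have h1 : ∀ a : List W,
      S T (fun b => ind (P.good ε a b) * N (fun k => P.z s k a x) (fun k => P.z t k b y))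
      ≤ S (t + 1) (fun b => ind (P.good ε a b) * N (fun k => P.z s k a x) (fun k => P.z t k b y)) := by
    intro a
    refine S_peel (t + 1) T htT _ fun b hb => ?_
    calc ∑ w, ind (P.good ε a (w :: b)) * N (fun k => P.z s k a x) (fun k => P.z t k (w :: b) y)
        ≤ ∑ w, ind (P.good ε a b) * N (fun k => P.z s k a x) (fun k => mv (P.Q b w y) (P.z t k b y)) := by
          refine Finset.sum_le_sum fun w _ => ?_
          have e : (fun k => P.z t k (w :: b) y) = fun k => mv (P.Q b w y) (P.z t k b y) := by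
            funext k
            exact P.z_cons t k b w y (by omega)
          rw [e]
          exact mul_le_mul_of_nonneg_right (ind_mono (P.good_right ε a w b)) (N0 _ _)
      _ = _ := by rw [← Finset.mul_sum, N2]
  refine (S_mono T h1).trans ?_
  refine S_peel (s + 1) T hsT _ fun a ha => ?_
  rw [← S_sum]
  refine S_mono _ fun b => ?_
  calc ∑ w, ind (P.good ε (w :: a) b) * N (fun k => P.z s k (w :: a) x) (fun k => P.z t k b y)
      ≤ ∑ w, ind (P.good ε a b) * N (fun k => mv (P.Q a w x) (P.z s k a x)) (fun k => P.z t k b y) := by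
        refine Finset.sum_le_sum fun w _ => ?_
        have e : (fun k => P.z s k (w :: a) x) = fun k => mv (P.Q a w x) (P.z s k a x) := by
          funext k
          exact P.z_cons s k a w x (by omega)
        rw [e]
        exact mul_le_mul_of_nonneg_right (ind_mono fun hg => hg.2) (N0 _ _)
    _ = _ := by rw [← Finset.mul_sum, N1]

lemma good_gc (ε : ℝ) (h : List W) (w : W) (h' : List W) (w' : W)
    (hg : P.good ε (w :: h) (w' :: h')) : P.gc ε h w h' w' := hg.1.1

/-- The difference of the state under a flip. -/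
def dd (h : List W) (k : κ) (x : κ → ℤˣ) : ι → ℝ := P.A h x - P.A h (fl k x)

lemma S_Ex_dd (t : ℕ) : Ex (fun x => S t (fun h => ∑ k, nsq (P.dd h k x))) ≤ 4 * t :=
  P.S_Ex_diff t

lemma hs_Ov_eq (h : List W) (w : W) (h' : List W) (w' : W) :
    P.Ov h w h' w' = ∑ k, kron (P.a h w (some k)) (P.a h' w' (some k)) := by
  funext p q
  rw [Finset.sum_apply, Finset.sum_apply]
  rfl

lemma mv_sum_left {τ ι' : Type*} [Fintype ι'] (s : Finset τ) (m : τ → ι' → ι' → ℝ) (u : ι' → ℝ) :
    mv (∑ a ∈ s, m a) u = ∑ a ∈ s, mv (m a) u := by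
  funext i
  simp only [mv]
  rw [Finset.sum_apply]
  simp only [Finset.sum_apply, Finset.sum_mul]
  rw [Finset.sum_comm]
  rfl

lemma U1_point (ε : ℝ) (hε : 0 ≤ ε) (h : List W) (w : W) (h' : List W) (w' : W)
    (hg : P.gc ε h w h' w') (L L' : ι → ℝ) (Lk Lk' : κ → ι → ℝ) :
    nsq (∑ k, tn (mv (P.a h w (some k)) (Lk k)) (mv (P.a h' w' (some k)) (Lk' k)))
      ≤ 2 * ε * (P.nn h w * P.nn h' w') * (nsq L * nsq L'
        + ∑ k, (2 * (nsq (L - Lk k) * nsq (Lk' k)) + 2 * (nsq L * nsq (L' - Lk' k)))) := by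
  set R : κ → ι × ι → ℝ := fun k => tn (L - Lk k) (Lk' k) + tn L (L' - Lk' k) with hR
  have hRk : ∀ k, tn (Lk k) (Lk' k) = tn L L' - R k := by
    intro k
    simp only [hR, tn_sub_left, tn_sub_right]
    abel
  have e1 : ∑ k, tn (mv (P.a h w (some k)) (Lk k)) (mv (P.a h' w' (some k)) (Lk' k))
      = mv (P.Ov h w h' w') (tn L L')
        - ∑ k, mv (kron (P.a h w (some k)) (P.a h' w' (some k))) (R k) := by
    rw [P.hs_Ov_eq, mv_sum_left, ← Finset.sum_sub_distrib]
    refine Finset.sum_congr rfl fun k _ => ?_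
    rw [← mv_sub, ← hRk, mv_kron]
  have hRn : ∀ k, nsq (R k) ≤ 2 * (nsq (L - Lk k) * nsq (Lk' k)) + 2 * (nsq L * nsq (L' - Lk' k)) := by
    intro k
    refine (nsq_add_le _ _).trans (le_of_eq ?_)
    rw [nsq_tn, nsq_tn]
  have hnn : 0 ≤ P.nn h w * P.nn h' w' := mul_nonneg (P.nn_nonneg _ _) (P.nn_nonneg _ _)
  have h1 : nsq (mv (P.Ov h w h' w') (tn L L')) ≤ ε * (P.nn h w * P.nn h' w') * (nsq L * nsq L') := by
    refine (nsq_mv_le _ _).trans ?_
    rw [nsq_tn]
    exact mul_le_mul_of_nonneg_right hg.1 (mul_nonneg (nsq_nonneg _) (nsq_nonneg _))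
  have h2 : nsq (∑ k, mv (kron (P.a h w (some k)) (P.a h' w' (some k))) (R k))
      ≤ ε * (P.nn h w * P.nn h' w')
        * ∑ k, (2 * (nsq (L - Lk k) * nsq (Lk' k)) + 2 * (nsq L * nsq (L' - Lk' k))) := by
    refine (nsq_sum_mv_le _ _).trans ?_
    refine mul_le_mul ?_ (Finset.sum_le_sum fun k _ => hRn k)
      (Finset.sum_nonneg fun k _ => nsq_nonneg _) (mul_nonneg hε hnn)
    simp_rw [hs_kron]
    exact hg.2
  rw [e1]
  refine (nsq_sub_le _ _).trans ?_
  linarith

/-- The remainder function at the lower level. -/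
def Kf (h h' : List W) (x y : κ → ℤˣ) : ℝ :=
  nsq (P.A h x) * nsq (P.A h' y) + ∑ k, (2 * (nsq (P.dd h k x) * nsq (P.A h' (fl k y)))
    + 2 * (nsq (P.A h x) * nsq (P.dd h' k y)))

lemma Kf_nonneg (h h' : List W) (x y : κ → ℤˣ) : 0 ≤ P.Kf h h' x y := by
  unfold Kf
  have h1 := nsq_nonneg (P.A h x)
  have h2 := nsq_nonneg (P.A h' y)
  refine add_nonneg (mul_nonneg h1 h2) (Finset.sum_nonneg fun k _ => ?_)
  have h3 := nsq_nonneg (P.dd h k x)
  have h4 := nsq_nonneg (P.A h' (fl k y))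
  have h5 := nsq_nonneg (P.dd h' k y)
  positivity

lemma SS_Kf (s t : ℕ) (x y : κ → ℤˣ) :
    SS s t (fun h h' => P.Kf h h' x y)
      = 1 + 2 * S s (fun h => ∑ k, nsq (P.dd h k x)) + 2 * S t (fun h' => ∑ k, nsq (P.dd h' k y)) := by
  unfold Kf
  rw [SS_add, SS_mul, P.S_nsq, P.S_nsq, SS_sum]
  simp_rw [SS_add, SS_mul_left]
  have e1 : ∀ k, SS s t (fun h h' => nsq (P.dd h k x) * nsq (P.A h' (fl k y)))
      = S s (fun h => nsq (P.dd h k x)) := by
    intro k
    rw [SS_mul s t (fun h => nsq (P.dd h k x)) (fun h' => nsq (P.A h' (fl k y))), P.S_nsq, mul_one]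
  have e2 : ∀ k, SS s t (fun h h' => nsq (P.A h x) * nsq (P.dd h' k y))
      = S t (fun h => nsq (P.dd h k y)) := by
    intro k
    rw [SS_mul s t (fun h => nsq (P.A h x)) (fun h' => nsq (P.dd h' k y)), P.S_nsq, one_mul]
  simp_rw [e1, e2]
  rw [Finset.sum_add_distrib, ← Finset.mul_sum, ← Finset.mul_sum, S_sum, S_sum]
  ring

lemma PE_Kf {r : ℝ} (s t T : ℕ) (hsT : s < T) (htT : t < T) :
    PE r (fun x y => SS s t (fun h h' => P.Kf h h' x y)) ≤ 16 * T := by
  simp_rw [P.SS_Kf]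
  rw [PE_add, PE_add, PE_const, PE_mul_left, PE_mul_left,
    PE_left r (fun x => S s (fun h => ∑ k, nsq (P.dd h k x))),
    PE_right r (fun y => S t (fun h => ∑ k, nsq (P.dd h k y)))]
  have h1 := P.S_Ex_dd s
  have h2 := P.S_Ex_dd t
  have h3 : (s : ℝ) + 1 ≤ T := by exact_mod_cast hsT
  have h4 : (t : ℝ) + 1 ≤ T := by exact_mod_cast htT
  linarith

/-- The first second moment bound. -/
lemma U1_le {r : ℝ} (h0 : 0 ≤ r) (h1 : r ≤ 1) (ε : ℝ) (hε : 0 ≤ ε) (s t T : ℕ)
    (hsT : s < T) (htT : t < T) :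
    PE r (fun x y => SS T T (fun a b => ind (P.good ε a b)
        * nsq (∑ k, tn (P.z s k a x) (P.z t k b y))))
      ≤ 32 * T * ε * (Fintype.card ι : ℝ) ^ 2 := by
  have hpt : ∀ x y : κ → ℤˣ, SS T T (fun a b => ind (P.good ε a b)
        * nsq (∑ k, tn (P.z s k a x) (P.z t k b y)))
      ≤ 2 * ε * (Fintype.card ι : ℝ) ^ 2 * SS s t (fun h h' => P.Kf h h' x y) := by
    intro x y
    refine (P.peel2 (fun u v => nsq (∑ k, tn (u k) (v k))) (fun u v => nsq_nonneg _)
      P.N_tn_left P.N_tn_right ε s t T hsT htT x y).trans ?_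
    rw [SS_succ, ← SS_mul_left]
    refine SS_mono' s t fun h h' hh hh' => ?_
    have e : ∀ w w', ind (P.good ε (w :: h) (w' :: h'))
        * nsq (∑ k, tn (P.z s k (w :: h) x) (P.z t k (w' :: h') y))
        ≤ 2 * ε * (P.nn h w * P.nn h' w') * P.Kf h h' x y := by
      intro w w'
      have hnn : 0 ≤ P.nn h w * P.nn h' w' := mul_nonneg (P.nn_nonneg _ _) (P.nn_nonneg _ _)
      have hK := P.Kf_nonneg h h' x y
      by_cases hg : P.good ε (w :: h) (w' :: h')
      · have h3 : ind (P.good ε (w :: h) (w' :: h')) = 1 := by unfold ind; rw [if_pos hg]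
        rw [h3, one_mul]
        simp_rw [P.z_top s _ h w x hh, P.z_top t _ h' w' y hh']
        exact P.U1_point ε hε h w h' w' (P.good_gc ε h w h' w' hg) (P.A h x) (P.A h' y)
          (fun k => P.A h (fl k x)) (fun k => P.A h' (fl k y))
      · have h3 : ind (P.good ε (w :: h) (w' :: h')) = 0 := by unfold ind; rw [if_neg hg]
        rw [h3, zero_mul]
        positivity
    calc ∑ w, ∑ w', ind (P.good ε (w :: h) (w' :: h'))
        * nsq (∑ k, tn (P.z s k (w :: h) x) (P.z t k (w' :: h') y))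
        ≤ ∑ w, ∑ w', 2 * ε * (P.nn h w * P.nn h' w') * P.Kf h h' x y :=
          Finset.sum_le_sum fun w _ => Finset.sum_le_sum fun w' _ => e w w'
      _ = 2 * ε * ((∑ w, P.nn h w) * ∑ w', P.nn h' w') * P.Kf h h' x y := by
          rw [Finset.sum_mul_sum, Finset.mul_sum, Finset.sum_mul]
          refine Finset.sum_congr rfl fun w _ => ?_
          rw [Finset.mul_sum, Finset.sum_mul]
      _ = _ := by rw [P.sum_nn, P.sum_nn]; ring
  refine (PE_mono h0 h1 hpt).trans ?_
  rw [PE_mul_left]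
  have h2 := P.PE_Kf (r := r) s t T hsT htT
  have h3 : 0 ≤ 2 * ε * (Fintype.card ι : ℝ) ^ 2 := by positivity
  calc 2 * ε * (Fintype.card ι : ℝ) ^ 2 * PE r (fun x y => SS s t (fun h h' => P.Kf h h' x y))
      ≤ 2 * ε * (Fintype.card ι : ℝ) ^ 2 * (16 * T) := mul_le_mul_of_nonneg_left h2 h3
    _ = _ := by ring

/-- The second second moment bound. -/
lemma U2_le {r : ℝ} (h0 : 0 ≤ r) (h1 : r ≤ 1) (ε : ℝ) (hε : 0 ≤ ε) (s t T : ℕ)
    (hsT : s < T) (htT : t < T) :
    PE r (fun x y => SS T T (fun a b => ind (P.good ε a b)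
        * ∑ k, nsq (P.z s k a x) * nsq (P.z t k b y)))
      ≤ ε * (Fintype.card ι : ℝ) ^ 2 := by
  have hpt : ∀ x y : κ → ℤˣ, SS T T (fun a b => ind (P.good ε a b)
        * ∑ k, nsq (P.z s k a x) * nsq (P.z t k b y))
      ≤ SS s t (fun h h' => ∑ w, ∑ w', ∑ k, (ind (P.gc ε h w h' w')
          * (hs (P.a h w (some k)) * hs (P.a h' w' (some k))))
          * (nsq (P.A h (fl k x)) * nsq (P.A h' (fl k y)))) := by
    intro x y
    refine (P.peel2 (fun u v => ∑ k, nsq (u k) * nsq (v k))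
      (fun u v => Finset.sum_nonneg fun k _ => mul_nonneg (nsq_nonneg _) (nsq_nonneg _))
      P.N_pr_left P.N_pr_right ε s t T hsT htT x y).trans ?_
    rw [SS_succ]
    refine SS_mono' s t fun h h' hh hh' => ?_
    refine Finset.sum_le_sum fun w _ => Finset.sum_le_sum fun w' _ => ?_
    rw [Finset.mul_sum]
    refine Finset.sum_le_sum fun k _ => ?_
    beta_reduce
    rw [P.z_top s k h w x hh, P.z_top t k h' w' y hh']
    have h3 : nsq (mv (P.a h w (some k)) (P.A h (fl k x)))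
        * nsq (mv (P.a h' w' (some k)) (P.A h' (fl k y)))
        ≤ (hs (P.a h w (some k)) * nsq (P.A h (fl k x)))
          * (hs (P.a h' w' (some k)) * nsq (P.A h' (fl k y))) :=
      mul_le_mul (nsq_mv_le _ _) (nsq_mv_le _ _) (nsq_nonneg _)
        (mul_nonneg (hs_nonneg _) (nsq_nonneg _))
    calc ind (P.good ε (w :: h) (w' :: h')) * (nsq (mv (P.a h w (some k)) (P.A h (fl k x)))
        * nsq (mv (P.a h' w' (some k)) (P.A h' (fl k y))))
        ≤ ind (P.gc ε h w h' w') * ((hs (P.a h w (some k)) * nsq (P.A h (fl k x)))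
          * (hs (P.a h' w' (some k)) * nsq (P.A h' (fl k y)))) :=
          mul_le_mul (ind_mono (P.good_gc ε h w h' w')) h3
            (mul_nonneg (nsq_nonneg _) (nsq_nonneg _)) (ind_nonneg _)
      _ = _ := by ring
  refine (PE_mono h0 h1 hpt).trans ?_
  rw [PE_SS]
  have hfl : ∀ (h h' : List W) (k : κ),
      PE r (fun x y => nsq (P.A h (fl k x)) * nsq (P.A h' (fl k y)))
        = PE r (fun x y => nsq (P.A h x) * nsq (P.A h' y)) := fun h h' k =>
    PE_fl r k (fun x y => nsq (P.A h x) * nsq (P.A h' y))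
  have e1 : ∀ h h' : List W, PE r (fun x y => ∑ w, ∑ w', ∑ k, (ind (P.gc ε h w h' w')
          * (hs (P.a h w (some k)) * hs (P.a h' w' (some k))))
          * (nsq (P.A h (fl k x)) * nsq (P.A h' (fl k y))))
      = (∑ w, ∑ w', ind (P.gc ε h w h' w') * P.coll h w h' w')
        * PE r (fun x y => nsq (P.A h x) * nsq (P.A h' y)) := by
    intro h h'
    rw [PE_sum, Finset.sum_mul]
    refine Finset.sum_congr rfl fun w _ => ?_
    rw [PE_sum, Finset.sum_mul]
    refine Finset.sum_congr rfl fun w' _ => ?_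
    rw [PE_sum]
    unfold coll
    rw [Finset.mul_sum, Finset.sum_mul]
    refine Finset.sum_congr rfl fun k _ => ?_
    rw [PE_mul_left, hfl]
  have e2 : ∀ h h' : List W, (∑ w, ∑ w', ind (P.gc ε h w h' w') * P.coll h w h' w')
      ≤ ε * (Fintype.card ι : ℝ) ^ 2 := by
    intro h h'
    calc (∑ w, ∑ w', ind (P.gc ε h w h' w') * P.coll h w h' w')
        ≤ ∑ w, ∑ w', ε * (P.nn h w * P.nn h' w') := by
          refine Finset.sum_le_sum fun w _ => Finset.sum_le_sum fun w' _ => ?_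
          have hnn : 0 ≤ P.nn h w * P.nn h' w' := mul_nonneg (P.nn_nonneg _ _) (P.nn_nonneg _ _)
          by_cases hg : P.gc ε h w h' w'
          · have h3 : ind (P.gc ε h w h' w') = 1 := by unfold ind; rw [if_pos hg]
            rw [h3, one_mul]
            exact hg.2
          · have h3 : ind (P.gc ε h w h' w') = 0 := by unfold ind; rw [if_neg hg]
            rw [h3, zero_mul]
            positivity
      _ = ε * ((∑ w, P.nn h w) * ∑ w', P.nn h' w') := by
          rw [Finset.sum_mul_sum, Finset.mul_sum]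
          refine Finset.sum_congr rfl fun w _ => ?_
          rw [Finset.mul_sum]
      _ = _ := by rw [P.sum_nn, P.sum_nn]; ring
  have e3 : PE r (fun x y => SS s t (fun h h' => nsq (P.A h x) * nsq (P.A h' y))) = 1 := by
    have : ∀ x y : κ → ℤˣ, SS s t (fun h h' => nsq (P.A h x) * nsq (P.A h' y)) = 1 := by
      intro x y
      rw [SS_mul, P.S_nsq, P.S_nsq, one_mul]
    simp_rw [this]
    exact PE_const r 1
  calc SS s t (fun h h' => PE r (fun x y => ∑ w, ∑ w', ∑ k, (ind (P.gc ε h w h' w')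
          * (hs (P.a h w (some k)) * hs (P.a h' w' (some k))))
          * (nsq (P.A h (fl k x)) * nsq (P.A h' (fl k y)))))
      ≤ SS s t (fun h h' => ε * (Fintype.card ι : ℝ) ^ 2
          * PE r (fun x y => nsq (P.A h x) * nsq (P.A h' y))) := by
        refine SS_mono s t fun h h' => ?_
        rw [e1]
        exact mul_le_mul_of_nonneg_right (e2 h h')
          (PE_nonneg h0 h1 fun x y => mul_nonneg (nsq_nonneg _) (nsq_nonneg _))
    _ = ε * (Fintype.card ι : ℝ) ^ 2 := by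
        rw [SS_mul_left, ← PE_SS r s t (fun h h' x y => nsq (P.A h x) * nsq (P.A h' y)), e3, mul_one]

end Pr

end Pool.Agent.H703R2.AA
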