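import Pool.Agent.H703R2.AA.Level

/-!
# The light lemma: a process all of whose positions are light has small variance
-/

set_option autoImplicit false
set_option linter.unusedSectionVars false

namespace Pool.Agent.H703R2.AA

open Finset Pool.Agent.H722R2.AA Pool.Agent.H746R2.AA

lemma hasDerivAt_S {W : Type*} [Fintype W] (t : ℕ) (F : List W → ℝ → ℝ) (F' : List W → ℝ) (r : ℝ)
    (H : ∀ h, HasDerivAt (F h) (F' h) r) :
    HasDerivAt (fun r => S t (fun h => F h r)) (S t F') r := by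
  induction t generalizing F F' with
  | zero => exact H []
  | succ t ih =>
    simp only [S]
    exact ih (fun h r => ∑ w, F (w :: h) r) (fun h => ∑ w, F' (w :: h)) fun h =>
      HasDerivAt.fun_sum fun w _ => H (w :: h)

lemma hasDerivAt_SS {W : Type*} [Fintype W] (s t : ℕ) (F : List W → List W → ℝ → ℝ)
    (F' : List W → List W → ℝ) (r : ℝ) (H : ∀ a b, HasDerivAt (F a b) (F' a b) r) :
    HasDerivAt (fun r => SS s t (fun a b => F a b r)) (SS s t F') r :=
  hasDerivAt_S s _ _ r fun a => hasDerivAt_S t _ _ r fun b => H a b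

namespace Pr

variable {κ ι W : Type*} [Fintype κ] [DecidableEq κ] [Fintype ι] [DecidableEq ι] [Fintype W]
variable (P : Pr κ ι W)

/-- The sum of the state and its flip. -/
def qq (a : List W) (k : κ) (x : κ → ℤˣ) : ι → ℝ := P.A a x + P.A a (fl k x)

/-- The remainder. -/
def rr (a b : List W) (k : κ) (x y : κ → ℤˣ) : ι × ι → ℝ :=
  -((2 : ℝ) • tn (P.A a x) (P.dd b k y)) - tn (P.dd a k x) (P.qq b k y)

lemma tn_qq (a b : List W) (k : κ) (x y : κ → ℤˣ) :
    tn (P.qq a k x) (P.qq b k y) = (4 : ℝ) • tn (P.A a x) (P.A b y) + P.rr a b k x y := by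
  funext p
  simp only [tn, qq, rr, dd, Pi.add_apply, Pi.sub_apply, Pi.smul_apply, Pi.neg_apply, smul_eq_mul]
  ring

lemma nsq_rr (a b : List W) (k : κ) (x y : κ → ℤˣ) :
    nsq (P.rr a b k x y) ≤ 8 * (nsq (P.A a x) * nsq (P.dd b k y))
      + 4 * (nsq (P.dd a k x) * nsq (P.A b y)) + 4 * (nsq (P.dd a k x) * nsq (P.A b (fl k y))) := by
  unfold rr
  refine (nsq_sub_le _ _).trans ?_
  rw [nsq_neg, nsq_smul, nsq_tn, nsq_tn]
  have h1 : nsq (P.qq b k y) ≤ 2 * nsq (P.A b y) + 2 * nsq (P.A b (fl k y)) := nsq_add_le _ _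
  have h2 := mul_le_mul_of_nonneg_left h1 (nsq_nonneg (P.dd a k x))
  linarith

lemma PE_rr {r : ℝ} (h0 : 0 ≤ r) (h1 : r ≤ 1) (T : ℕ) :
    PE r (fun x y => SS T T (fun a b => ∑ k, nsq (P.rr a b k x y))) ≤ 64 * T := by
  have hpt : ∀ x y : κ → ℤˣ, SS T T (fun a b => ∑ k, nsq (P.rr a b k x y))
      ≤ 8 * S T (fun b => ∑ k, nsq (P.dd b k y)) + 8 * S T (fun a => ∑ k, nsq (P.dd a k x)) := by
    intro x y
    calc SS T T (fun a b => ∑ k, nsq (P.rr a b k x y))
        ≤ SS T T (fun a b => ∑ k, (8 * (nsq (P.A a x) * nsq (P.dd b k y))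
      + 4 * (nsq (P.dd a k x) * nsq (P.A b y)) + 4 * (nsq (P.dd a k x) * nsq (P.A b (fl k y))))) :=
          SS_mono T T fun a b => Finset.sum_le_sum fun k _ => P.nsq_rr a b k x y
      _ = _ := by
          rw [SS_sum, S_sum, S_sum, Finset.mul_sum, Finset.mul_sum, ← Finset.sum_add_distrib]
          refine Finset.sum_congr rfl fun k _ => ?_
          rw [SS_add, SS_add, SS_mul_left, SS_mul_left, SS_mul_left,
            SS_mul T T (fun a => nsq (P.A a x)) (fun b => nsq (P.dd b k y)),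
            SS_mul T T (fun a => nsq (P.dd a k x)) (fun b => nsq (P.A b y)),
            SS_mul T T (fun a => nsq (P.dd a k x)) (fun b => nsq (P.A b (fl k y))),
            P.S_nsq, P.S_nsq, P.S_nsq]
          ring
  refine (PE_mono h0 h1 hpt).trans ?_
  rw [PE_add, PE_mul_left, PE_mul_left, PE_left r (fun x => S T (fun h => ∑ k, nsq (P.dd h k x))),
    PE_right r (fun y => S T (fun h => ∑ k, nsq (P.dd h k y)))]
  have h2 := P.S_Ex_dd T
  linarith

lemma PE_AA {r : ℝ} (T : ℕ) :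
    PE r (fun x y => SS T T (fun a b => nsq (P.A a x) * nsq (P.A b y))) = 1 := by
  have : ∀ x y : κ → ℤˣ, SS T T (fun a b => nsq (P.A a x) * nsq (P.A b y)) = 1 := by
    intro x y
    rw [SS_mul, P.S_nsq, P.S_nsq, one_mul]
  simp_rw [this]
  exact PE_const r 1

/-- The pointwise bound for the products. -/
lemma pt_bound (c1 c2 : ℝ) (hc1 : 0 < c1) (hc2 : 0 < c2) (s t : ℕ) (a b : List W) (x y : κ → ℤˣ) :
    |∑ k, dot (P.z s k a x) (P.qq a k x) * dot (P.z t k b y) (P.qq b k y)|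
      ≤ 2 * (c1 * nsq (∑ k, tn (P.z s k a x) (P.z t k b y)) + nsq (P.A a x) * nsq (P.A b y) / c1)
        + (c2 * (∑ k, nsq (P.z s k a x) * nsq (P.z t k b y))
          + (∑ k, nsq (P.rr a b k x y)) / c2) / 2 := by
  have e1 : ∑ k, dot (P.z s k a x) (P.qq a k x) * dot (P.z t k b y) (P.qq b k y)
      = 4 * dot (∑ k, tn (P.z s k a x) (P.z t k b y)) (tn (P.A a x) (P.A b y))
        + ∑ k, dot (tn (P.z s k a x) (P.z t k b y)) (P.rr a b k x y) := by
    rw [dot_sum_left, Finset.mul_sum, ← Finset.sum_add_distrib]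
    refine Finset.sum_congr rfl fun k _ => ?_
    rw [← dot_tn, P.tn_qq, dot_add_right, dot_smul_right]
  rw [e1]
  have h1 := abs_dot_le (∑ k, tn (P.z s k a x) (P.z t k b y)) (tn (P.A a x) (P.A b y)) c1 hc1
  rw [nsq_tn] at h1
  have h2 : |∑ k, dot (tn (P.z s k a x) (P.z t k b y)) (P.rr a b k x y)|
      ≤ (c2 * (∑ k, nsq (P.z s k a x) * nsq (P.z t k b y))
          + (∑ k, nsq (P.rr a b k x y)) / c2) / 2 := by
    calc |∑ k, dot (tn (P.z s k a x) (P.z t k b y)) (P.rr a b k x y)|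
        ≤ ∑ k, |dot (tn (P.z s k a x) (P.z t k b y)) (P.rr a b k x y)| :=
          Finset.abs_sum_le_sum_abs _ _
      _ ≤ ∑ k, (c2 * (nsq (P.z s k a x) * nsq (P.z t k b y)) + nsq (P.rr a b k x y) / c2) / 2 := by
          refine Finset.sum_le_sum fun k _ => ?_
          have := abs_dot_le (tn (P.z s k a x) (P.z t k b y)) (P.rr a b k x y) c2 hc2
          rwa [nsq_tn] at this
      _ = _ := by
          rw [← Finset.sum_div, Finset.sum_add_distrib, ← Finset.mul_sum, ← Finset.sum_div]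
  refine (abs_add_le _ _).trans ?_
  rw [abs_mul, abs_of_pos (by norm_num : (0 : ℝ) < 4)]
  linarith

lemma D_prod (T : ℕ) (a b : List W) (ha : a.length ≤ T) (hb : b.length ≤ T) (x y : κ → ℤˣ) :
    ∑ k, D (fun x => nsq (P.A a x)) k x * D (fun y => nsq (P.A b y)) k y
      = ∑ s ∈ Finset.range T, ∑ t ∈ Finset.range T,
        ∑ k, dot (P.z s k a x) (P.qq a k x) * dot (P.z t k b y) (P.qq b k y) := by
  have e : ∀ k, D (fun x => nsq (P.A a x)) k x * D (fun y => nsq (P.A b y)) k y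
      = ∑ s ∈ Finset.range T, ∑ t ∈ Finset.range T,
        dot (P.z s k a x) (P.qq a k x) * dot (P.z t k b y) (P.qq b k y) := by
    intro k
    rw [P.D_nsq T k a x ha, P.D_nsq T k b y hb, Finset.sum_mul_sum]
    rfl
  simp_rw [e]
  rw [Finset.sum_comm]
  refine Finset.sum_congr rfl fun s _ => ?_
  rw [Finset.sum_comm]

/-- The bound for one pair of steps. -/
lemma pair_bound [Nonempty ι] {r : ℝ} (h0 : 0 ≤ r) (h1 : r ≤ 1) (c : ℝ) (hc : 0 < c) (s t T : ℕ)
    (hsT : s < T) (htT : t < T) :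
    PE r (fun x y => SS T T (fun a b => ind (P.good (c ^ 2) a b)
      * |∑ k, dot (P.z s k a x) (P.qq a k x) * dot (P.z t k b y) (P.qq b k y)|))
      ≤ 32 * (c * Fintype.card ι * T) := by
  set m : ℝ := (Fintype.card ι : ℝ) with hm
  have hm0 : 0 < m := by
    rw [hm]; exact_mod_cast Fintype.card_pos
  have hT1 : (1 : ℝ) ≤ T := by
    have : 1 ≤ T := by omega
    exact_mod_cast this
  set η : ℝ := c * m * T with hη
  have hη0 : 0 < η := by positivity
  set c1 : ℝ := 1 / (6 * η) with hc1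
  set c2 : ℝ := 8 * (T : ℝ) ^ 2 / η with hc2
  have hc1' : 0 < c1 := by positivity
  have hc2' : 0 < c2 := by positivity
  have hpt : ∀ x y : κ → ℤˣ, SS T T (fun a b => ind (P.good (c ^ 2) a b)
      * |∑ k, dot (P.z s k a x) (P.qq a k x) * dot (P.z t k b y) (P.qq b k y)|)
      ≤ (2 * c1) * SS T T (fun a b => ind (P.good (c ^ 2) a b)
          * nsq (∑ k, tn (P.z s k a x) (P.z t k b y)))
        + (2 / c1) * SS T T (fun a b => nsq (P.A a x) * nsq (P.A b y))
        + (c2 / 2) * SS T T (fun a b => ind (P.good (c ^ 2) a b)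
          * ∑ k, nsq (P.z s k a x) * nsq (P.z t k b y))
        + (1 / (2 * c2)) * SS T T (fun a b => ∑ k, nsq (P.rr a b k x y)) := by
    intro x y
    rw [← SS_mul_left, ← SS_mul_left, ← SS_mul_left, ← SS_mul_left, ← SS_add, ← SS_add, ← SS_add]
    refine SS_mono T T fun a b => ?_
    have hb := mul_le_mul_of_nonneg_left (P.pt_bound c1 c2 hc1' hc2' s t a b x y)
      (ind_nonneg (P.good (c ^ 2) a b))
    refine hb.trans ?_
    have h3 : ind (P.good (c ^ 2) a b) * (nsq (P.A a x) * nsq (P.A b y) / c1)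
        ≤ nsq (P.A a x) * nsq (P.A b y) / c1 := by
      refine mul_le_of_le_one_left ?_ (ind_le_one _)
      exact div_nonneg (mul_nonneg (nsq_nonneg _) (nsq_nonneg _)) hc1'.le
    have h4 : ind (P.good (c ^ 2) a b) * ((∑ k, nsq (P.rr a b k x y)) / c2)
        ≤ (∑ k, nsq (P.rr a b k x y)) / c2 := by
      refine mul_le_of_le_one_left ?_ (ind_le_one _)
      exact div_nonneg (Finset.sum_nonneg fun k _ => nsq_nonneg _) hc2'.le
    have e3 : (2 / c1) * (nsq (P.A a x) * nsq (P.A b y)) = 2 * (nsq (P.A a x) * nsq (P.A b y) / c1) := by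
      ring
    have e4 : (1 / (2 * c2)) * (∑ k, nsq (P.rr a b k x y)) = ((∑ k, nsq (P.rr a b k x y)) / c2) / 2 := by
      field_simp
    rw [e3, e4]
    linarith
  refine (PE_mono h0 h1 hpt).trans ?_
  rw [PE_add, PE_add, PE_add, PE_mul_left, PE_mul_left, PE_mul_left, PE_mul_left, P.PE_AA]
  have b1 := P.U1_le h0 h1 (c ^ 2) (by positivity) s t T hsT htT
  have b2 := P.U2_le h0 h1 (c ^ 2) (by positivity) s t T hsT htT
  have b3 := P.PE_rr h0 h1 T
  rw [← hm] at b1 b2
  have d1 := mul_le_mul_of_nonneg_left b1 (by positivity : 0 ≤ 2 * c1)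
  have d2 := mul_le_mul_of_nonneg_left b2 (by positivity : 0 ≤ c2 / 2)
  have d3 := mul_le_mul_of_nonneg_left b3 (by positivity : 0 ≤ 1 / (2 * c2))
  have f1 : 2 * c1 * (32 * T * c ^ 2 * m ^ 2) = 32 / 3 * (c * m) := by
    rw [hc1, hη]; field_simp; ring
  have f2 : c2 / 2 * (c ^ 2 * m ^ 2) = 4 * η := by
    rw [hc2, hη]; field_simp; ring
  have f3 : 1 / (2 * c2) * (64 * T) = 4 * (c * m) := by
    rw [hc2, hη]; field_simp; ring
  have f4 : 2 / c1 * 1 = 12 * η := by
    rw [hc1]; field_simp; ring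
  have f5 : c * m ≤ η := by
    rw [hη]
    exact le_mul_of_one_le_right (by positivity) hT1
  rw [f1] at d1
  rw [f2] at d2
  rw [f3] at d3
  rw [f4]
  linarith

/-- The part of the second moment coming from good pairs. -/
noncomputable def Gd (T : ℕ) (c : ℝ) (g : List W → ℝ) (r : ℝ) : ℝ :=
  SS T T (fun a b => (ind (P.good (c ^ 2) a b) * (g a * g b))
    * PE r (fun x y => nsq (P.A a x) * nsq (P.A b y)))

lemma Gd_deriv (T : ℕ) (c : ℝ) (g : List W → ℝ) (r : ℝ) :
    HasDerivAt (P.Gd T c g) (SS T T (fun a b => (ind (P.good (c ^ 2) a b) * (g a * g b))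
      * ∑ k, PE r (fun x y => D (fun x => nsq (P.A a x)) k x * D (fun y => nsq (P.A b y)) k y))) r := by
  unfold Gd
  exact hasDerivAt_SS T T _ _ r fun a b =>
    (hasDerivAt_PE (fun x => nsq (P.A a x)) (fun y => nsq (P.A b y)) r).const_mul _

lemma deriv_bound [Nonempty ι] {r : ℝ} (h0 : 0 ≤ r) (h1 : r ≤ 1) (c : ℝ) (hc : 0 < c) (T : ℕ)
    (g : List W → ℝ) (hg0 : ∀ a, 0 ≤ g a) (hg1 : ∀ a, g a ≤ 1) :
    |SS T T (fun a b => (ind (P.good (c ^ 2) a b) * (g a * g b))
      * ∑ k, PE r (fun x y => D (fun x => nsq (P.A a x)) k x * D (fun y => nsq (P.A b y)) k y))|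
      ≤ 32 * (T : ℝ) ^ 3 * Fintype.card ι * c := by
  refine (SS_abs _ _ _).trans ?_
  have step : SS T T (fun a b => |(ind (P.good (c ^ 2) a b) * (g a * g b))
      * ∑ k, PE r (fun x y => D (fun x => nsq (P.A a x)) k x * D (fun y => nsq (P.A b y)) k y)|)
      ≤ SS T T (fun a b => PE r (fun x y => ∑ s ∈ Finset.range T, ∑ t ∈ Finset.range T,
        ind (P.good (c ^ 2) a b)
          * |∑ k, dot (P.z s k a x) (P.qq a k x) * dot (P.z t k b y) (P.qq b k y)|)) := by
    refine SS_mono' T T fun a b ha hb => ?_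
    rw [abs_mul]
    have hgg : |ind (P.good (c ^ 2) a b) * (g a * g b)| ≤ ind (P.good (c ^ 2) a b) := by
      have hi := ind_nonneg (P.good (c ^ 2) a b)
      have h3 : 0 ≤ g a * g b := mul_nonneg (hg0 a) (hg0 b)
      have h4 : g a * g b ≤ 1 := mul_le_one₀ (hg1 a) (hg0 b) (hg1 b)
      rw [abs_of_nonneg (mul_nonneg hi h3)]
      exact mul_le_of_le_one_right hi h4
    rw [← PE_sum]
    calc |ind (P.good (c ^ 2) a b) * (g a * g b)|
          * |PE r (fun x y => ∑ k, D (fun x => nsq (P.A a x)) k x * D (fun y => nsq (P.A b y)) k y)|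
        ≤ ind (P.good (c ^ 2) a b)
          * PE r (fun x y => |∑ k, D (fun x => nsq (P.A a x)) k x * D (fun y => nsq (P.A b y)) k y|) :=
          mul_le_mul hgg (PE_abs h0 h1 _) (abs_nonneg _) (ind_nonneg _)
      _ = PE r (fun x y => ind (P.good (c ^ 2) a b)
          * |∑ k, D (fun x => nsq (P.A a x)) k x * D (fun y => nsq (P.A b y)) k y|) := by
          rw [PE_mul_left]
      _ ≤ _ := by
          refine PE_mono h0 h1 fun x y => ?_
          rw [P.D_prod T a b ha.le hb.le]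
          simp_rw [← Finset.mul_sum]
          refine mul_le_mul_of_nonneg_left ?_ (ind_nonneg _)
          refine (Finset.abs_sum_le_sum_abs _ _).trans ?_
          exact Finset.sum_le_sum fun s _ => Finset.abs_sum_le_sum_abs _ _
  refine step.trans ?_
  rw [← PE_SS r T T (fun a b x y => ∑ s ∈ Finset.range T, ∑ t ∈ Finset.range T,
        ind (P.good (c ^ 2) a b)
          * |∑ k, dot (P.z s k a x) (P.qq a k x) * dot (P.z t k b y) (P.qq b k y)|)]
  simp_rw [SS_sum]
  rw [PE_sum]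
  simp_rw [PE_sum]
  calc ∑ s ∈ Finset.range T, ∑ t ∈ Finset.range T,
        PE r (fun x y => SS T T (fun a b => ind (P.good (c ^ 2) a b)
          * |∑ k, dot (P.z s k a x) (P.qq a k x) * dot (P.z t k b y) (P.qq b k y)|))
      ≤ ∑ _s ∈ Finset.range T, ∑ _t ∈ Finset.range T, 32 * (c * Fintype.card ι * T) :=
        Finset.sum_le_sum fun s hs' => Finset.sum_le_sum fun t ht' =>
          P.pair_bound h0 h1 c hc s t T (Finset.mem_range.1 hs') (Finset.mem_range.1 ht')
    _ = _ := by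
        simp only [Finset.sum_const, Finset.card_range, nsmul_eq_mul]
        ring

lemma Gd_sub [Nonempty ι] (c : ℝ) (hc : 0 < c) (T : ℕ)
    (g : List W → ℝ) (hg0 : ∀ a, 0 ≤ g a) (hg1 : ∀ a, g a ≤ 1) :
    |P.Gd T c g 1 - P.Gd T c g 0| ≤ 32 * (T : ℝ) ^ 3 * Fintype.card ι * c := by
  have := (convex_Icc (0 : ℝ) 1).norm_image_sub_le_of_norm_hasDerivWithin_le
    (f := P.Gd T c g) (C := 32 * (T : ℝ) ^ 3 * Fintype.card ι * c)
    (fun r _ => (P.Gd_deriv T c g r).hasDerivWithinAt)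
    (fun r hr => by
      rw [Real.norm_eq_abs]
      exact P.deriv_bound hr.1 hr.2 c hc T g hg0 hg1)
    (Set.left_mem_Icc.2 zero_le_one) (Set.right_mem_Icc.2 zero_le_one)
  simpa using this

/-- The acceptance probability. -/
noncomputable def out (T : ℕ) (g : List W → ℝ) (x : κ → ℤˣ) : ℝ := S T (fun a => g a * nsq (P.A a x))

lemma PE_out (T : ℕ) (g : List W → ℝ) (r : ℝ) :
    PE r (fun x y => P.out T g x * P.out T g y)
      = SS T T (fun a b => (g a * g b) * PE r (fun x y => nsq (P.A a x) * nsq (P.A b y))) := by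
  have : ∀ x y : κ → ℤˣ, P.out T g x * P.out T g y
      = SS T T (fun a b => (g a * g b) * (nsq (P.A a x) * nsq (P.A b y))) := by
    intro x y
    unfold out
    rw [← SS_mul]
    refine SS_congr' T T fun a b _ _ => by ring
  simp_rw [this]
  rw [PE_SS]
  refine SS_congr' T T fun a b _ _ => ?_
  rw [PE_mul_left]

lemma out_one (T : ℕ) (x : κ → ℤˣ) : P.out T (fun _ => 1) x = 1 := by
  unfold out
  simp_rw [one_mul]
  exact P.S_nsq T x

/-- The part of the second moment coming from bad pairs. -/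
noncomputable def Bd (T : ℕ) (c : ℝ) (g : List W → ℝ) (r : ℝ) : ℝ :=
  SS T T (fun a b => (ind (¬ P.good (c ^ 2) a b) * (g a * g b))
    * PE r (fun x y => nsq (P.A a x) * nsq (P.A b y)))

lemma Gd_add_Bd (T : ℕ) (c : ℝ) (g : List W → ℝ) (r : ℝ) :
    P.Gd T c g r + P.Bd T c g r = PE r (fun x y => P.out T g x * P.out T g y) := by
  rw [P.PE_out]
  unfold Gd Bd
  rw [← SS_add]
  refine SS_congr' T T fun a b _ _ => ?_
  rw [ind_not]; ring

/-- The light lemma. -/
theorem light [Nonempty ι] (c : ℝ) (hc : 0 < c) (T : ℕ) (hT : 1 ≤ T)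
    (hdel : ∀ t < T, ∀ k, P.del t k ≤ c ^ 3)
    (g : List W → ℝ) (hg0 : ∀ a, 0 ≤ g a) (hg1 : ∀ a, g a ≤ 1) :
    Cov (P.out T g) (P.out T g) ≤ 192 * (T : ℝ) ^ 4 * Fintype.card ι * c := by
  have hC := P.Gd_sub c hc T g hg0 hg1
  have hC1 := P.Gd_sub c hc T (fun _ => 1) (fun _ => zero_le_one) (fun _ => le_rfl)
  have hPE0 : ∀ {r : ℝ}, 0 ≤ r → r ≤ 1 → ∀ a b : List W,
      0 ≤ PE r (fun x y => nsq (P.A a x) * nsq (P.A b y)) := fun h0 h1 a b =>
    PE_nonneg h0 h1 fun x y => mul_nonneg (nsq_nonneg _) (nsq_nonneg _)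
  have hB0 : 0 ≤ P.Bd T c g 0 := by
    unfold Bd
    refine SS_nonneg T T fun a b => ?_
    exact mul_nonneg (mul_nonneg (ind_nonneg _) (mul_nonneg (hg0 a) (hg0 b)))
      (hPE0 le_rfl zero_le_one a b)
  have hB1 : P.Bd T c g 1 ≤ P.Bd T c (fun _ => 1) 1 := by
    unfold Bd
    refine SS_mono T T fun a b => ?_
    refine mul_le_mul_of_nonneg_right ?_ (hPE0 zero_le_one le_rfl a b)
    refine mul_le_mul_of_nonneg_left ?_ (ind_nonneg _)
    rw [one_mul]
    exact mul_le_one₀ (hg1 a) (hg0 b) (hg1 b)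
  have hone : ∀ r : ℝ, P.Gd T c (fun _ => 1) r + P.Bd T c (fun _ => 1) r = 1 := by
    intro r
    rw [P.Gd_add_Bd]
    simp_rw [P.out_one, one_mul]
    exact PE_const r 1
  have hbad : P.Bd T c (fun _ => 1) 0 ≤ 128 * (T : ℝ) ^ 4 * c * Fintype.card ι := by
    have h1 := P.bad_le T (c ^ 2) (c ^ 3) (by positivity) (by positivity) hdel
    have e : P.Bd T c (fun _ => 1) 0
        = S T (fun a => S T (fun b => ind (¬ P.good (c ^ 2) a b) * (P.p a * P.p b))) := by
      unfold Bd SS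
      refine S_congr' T fun a _ => S_congr' T fun b _ => ?_
      beta_reduce
      rw [PE_zero]
      have : ∀ x : κ → ℤˣ, Ex (fun y => nsq (P.A a x) * nsq (P.A b y)) = nsq (P.A a x) * P.p b := by
        intro x
        rw [Ex_mul_left]; rfl
      simp_rw [this]
      rw [Ex_mul_right]
      simp only [mul_one, p]
    rw [e]
    refine h1.trans (le_of_eq ?_)
    field_simp
  have hcov : Cov (P.out T g) (P.out T g)
      = (P.Gd T c g 1 + P.Bd T c g 1) - (P.Gd T c g 0 + P.Bd T c g 0) := by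
    rw [P.Gd_add_Bd, P.Gd_add_Bd, PE_one, PE_zero]
    unfold Cov
    congr 1
    simp_rw [Ex_mul_left]
    rw [Ex_mul_right]
  have h1 := (abs_le.1 hC).2
  have h2 := (abs_le.1 hC1).1
  have h3 := hone 1
  have h4 := hone 0
  have h5 : 32 * (T : ℝ) ^ 3 * Fintype.card ι * c ≤ 32 * (T : ℝ) ^ 4 * Fintype.card ι * c := by
    have hT1 : (1 : ℝ) ≤ T := by exact_mod_cast hT
    have : (T : ℝ) ^ 3 ≤ (T : ℝ) ^ 4 := pow_le_pow_right₀ hT1 (by norm_num)
    gcongr
  rw [hcov]
  linarith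

end Pr

end Pool.Agent.H703R2.AA
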