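import Pool.Agent.H703R2.AA.Light
import Pool.Agent.H746R2.AA.Fix

/-!
# Influential coordinates of processes with a bounded memory
-/

set_option autoImplicit false
set_option linter.unusedSectionVars false

namespace Pool.Agent.H703R2.AA

open Finset Pool.Agent.H722R2.AA Pool.Agent.H746R2.AA

section Gen

variable {κ : Type*} [Fintype κ] [DecidableEq κ]

lemma abs_Cov_le (f h : (κ → ℤˣ) → ℝ) : |Cov f h| ≤ Real.sqrt (Cov f f) * Real.sqrt (Cov h h) := by
  rw [← Real.sqrt_mul (Cov_self_nonneg f)]
  refine Real.abs_le_sqrt ?_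
  rw [Cov_eq, Cov_eq, Cov_eq]
  simp_rw [← sq]
  exact Finset.sum_mul_sq_le_sq_mul_sq _ _ _

/-- Decomposition of the covariance with respect to a coordinate. -/
lemma Cov_split (f h : (κ → ℤˣ) → ℝ) (k : κ) :
    Cov f h = (Cov (fr k 1 f) h + Cov (fr k (-1) f) h) / 2
      + Ex (fun x => sg x k * D f k x * h x) := by
  have hE := Ex_split k f
  have hp : Ex (fun x => f x * h x) = Ex (fun x => (fr k 1 f x * h x + fr k (-1) f x * h x) / 2
      + sg x k * D f k x * h x) := by
    refine Ex_congr fun x => ?_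
    unfold fr D sg
    rcases Int.units_eq_one_or (x k) with h2 | h2
    · have h3 : Function.update x k 1 = x := by rw [← h2, Function.update_eq_self]
      rw [h3, h2]; push_cast; ring
    · have h3 : Function.update x k (-1) = x := by rw [← h2, Function.update_eq_self]
      rw [h3, h2]; push_cast; ring
  have hp2 : Ex (fun x => (fr k 1 f x * h x + fr k (-1) f x * h x) / 2
      + sg x k * D f k x * h x) = (Ex (fun x => fr k 1 f x * h x)
        + Ex (fun x => fr k (-1) f x * h x)) / 2 + Ex (fun x => sg x k * D f k x * h x) := by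
    rw [Ex_add]
    congr 1
    simp_rw [div_eq_mul_inv]
    rw [Ex_mul_right, Ex_add]
  unfold Cov
  rw [hp, hp2]
  rw [hE]
  ring

lemma D_update (f : (κ → ℤˣ) → ℝ) (k : κ) (x : κ → ℤˣ) (u : ℤˣ) :
    D f k (Function.update x k u) = D f k x := by
  unfold D
  rw [Function.update_idem, Function.update_idem]

lemma abs_D_le (f : (κ → ℤˣ) → ℝ) (h0 : ∀ x, 0 ≤ f x) (h1 : ∀ x, f x ≤ 1) (k : κ) (x : κ → ℤˣ) :
    |D f k x| ≤ 1 / 2 := by
  unfold D
  rw [abs_le]
  constructor
  · have := h0 (Function.update x k 1)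
    have := h1 (Function.update x k (-1))
    linarith
  · have := h1 (Function.update x k 1)
    have := h0 (Function.update x k (-1))
    linarith

end Gen

namespace Pr

variable {κ ι W : Type*} [Fintype κ] [DecidableEq κ] [Fintype ι] [DecidableEq ι] [Fintype W]
variable (P : Pr κ ι W)

/-- The restricted matrices. -/
def ra (k : κ) (s : ℤˣ) (h : List W) (w : W) : Option κ → ι → ι → ℝ
  | none => fun i j => P.a h w none i j + ((s : ℤ) : ℝ) * P.a h w (some k) i j
  | some l => if l = k then fun _ _ => 0 else P.a h w (some l)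

lemma ra_self (k : κ) (s : ℤˣ) (h : List W) (w : W) : P.ra k s h w (some k) = fun _ _ => 0 := by
  simp [ra]

lemma ra_ne (k l : κ) (s : ℤˣ) (h : List W) (w : W) (hl : l ≠ k) :
    P.ra k s h w (some l) = P.a h w (some l) := by
  simp [ra, hl]

lemma ra_none (k : κ) (s : ℤˣ) (h : List W) (w : W) (i j : ι) :
    P.ra k s h w none i j = P.a h w none i j + ((s : ℤ) : ℝ) * P.a h w (some k) i j := rfl

lemma cast_sq (s : ℤˣ) : ((s : ℤ) : ℝ) * ((s : ℤ) : ℝ) = 1 := by
  rcases Int.units_eq_one_or s with h | h <;> rw [h] <;> norm_num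

lemma ra_orth (k : κ) (s : ℤˣ) (h : List W) (p q : Option κ) (hpq : p ≠ q) (i j : ι) :
    ∑ w, ∑ m, P.ra k s h w p m i * P.ra k s h w q m j = 0 := by
  have key : ∀ l : κ, ∀ i j : ι, ∑ w, ∑ m, P.ra k s h w none m i * P.ra k s h w (some l) m j = 0 := by
    intro l i j
    by_cases hl : l = k
    · subst hl
      simp [ra_self]
    · simp_rw [P.ra_ne k l s h _ hl, ra_none, add_mul, Finset.sum_add_distrib]
      rw [P.orth h none (some l) (by simp) i j, zero_add]
      have : ∑ w, ∑ m, ((s : ℤ) : ℝ) * P.a h w (some k) m i * P.a h w (some l) m j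
          = ((s : ℤ) : ℝ) * ∑ w, ∑ m, P.a h w (some k) m i * P.a h w (some l) m j := by
        simp_rw [Finset.mul_sum]
        refine Finset.sum_congr rfl fun w _ => Finset.sum_congr rfl fun m _ => by ring
      rw [this, P.orth h (some k) (some l) (by simpa using Ne.symm hl) i j, mul_zero]
  cases p with
  | none =>
    cases q with
    | none => exact absurd rfl hpq
    | some l => exact key l i j
  | some l =>
    cases q with
    | none =>
      have : ∀ w m, P.ra k s h w (some l) m i * P.ra k s h w none m j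
          = P.ra k s h w none m j * P.ra k s h w (some l) m i := fun w m => mul_comm _ _
      simp_rw [this]
      exact key l j i
    | some l' =>
      by_cases hl : l = k
      · subst hl
        simp [ra_self]
      · by_cases hl' : l' = k
        · subst hl'
          simp [ra_self]
        · simp_rw [P.ra_ne k l s h _ hl, P.ra_ne k l' s h _ hl']
          exact P.orth h (some l) (some l') hpq i j

lemma ra_tot (k : κ) (s : ℤˣ) (h : List W) (i j : ι) :
    ∑ p, ∑ w, ∑ m, P.ra k s h w p m i * P.ra k s h w p m j = if i = j then 1 else 0 := by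
  rw [← P.tot h i j, Fintype.sum_option, Fintype.sum_option]
  have e1 : ∑ w, ∑ m, P.ra k s h w none m i * P.ra k s h w none m j
      = ∑ w, ∑ m, P.a h w none m i * P.a h w none m j
        + ∑ w, ∑ m, P.a h w (some k) m i * P.a h w (some k) m j := by
    have : ∀ w m, P.ra k s h w none m i * P.ra k s h w none m j
        = P.a h w none m i * P.a h w none m j + P.a h w (some k) m i * P.a h w (some k) m j
          + (((s : ℤ) : ℝ) * (P.a h w none m i * P.a h w (some k) m j)
            + ((s : ℤ) : ℝ) * (P.a h w (some k) m i * P.a h w none m j)) := by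
      intro w m
      rw [ra_none, ra_none]
      linear_combination (P.a h w (some k) m i * P.a h w (some k) m j) * cast_sq s
    simp_rw [this, Finset.sum_add_distrib, ← Finset.mul_sum]
    rw [P.orth h none (some k) (by simp) i j, P.orth h (some k) none (by simp) i j]
    ring
  have e2 : ∑ l : κ, ∑ w, ∑ m, P.ra k s h w (some l) m i * P.ra k s h w (some l) m j
      = ∑ l ∈ Finset.univ.erase k, ∑ w, ∑ m, P.a h w (some l) m i * P.a h w (some l) m j := by
    rw [← Finset.add_sum_erase Finset.univ _ (Finset.mem_univ k)]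
    have h0 : ∑ w, ∑ m, P.ra k s h w (some k) m i * P.ra k s h w (some k) m j = 0 := by
      simp [ra_self]
    rw [h0, zero_add]
    refine Finset.sum_congr rfl fun l hl => ?_
    simp_rw [P.ra_ne k l s h _ (Finset.ne_of_mem_erase hl)]
  rw [e1, e2, add_assoc, Finset.add_sum_erase Finset.univ
    (fun l : κ => ∑ w, ∑ m, P.a h w (some l) m i * P.a h w (some l) m j) (Finset.mem_univ k)]

/-- Fixing the coordinate `k` to the sign `s`. -/
def res (k : κ) (s : ℤˣ) : Pr κ ι W where
  a := P.ra k s
  v := P.v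
  hv := P.hv
  orth := fun h p q hpq i j => P.ra_orth k s h p q hpq i j
  tot := fun h i j => P.ra_tot k s h i j

lemma Q_res (k : κ) (s : ℤˣ) (h : List W) (w : W) (x : κ → ℤˣ) :
    (P.res k s).Q h w x = P.Q h w (Function.update x k s) := by
  funext i j
  unfold Q
  rw [Fintype.sum_option, Fintype.sum_option]
  change sgo x none * P.ra k s h w none i j + ∑ l : κ, sgo x (some l) * P.ra k s h w (some l) i j = _
  rw [ra_none]
  rw [← Finset.add_sum_erase Finset.univ (fun l : κ => sgo x (some l) * P.ra k s h w (some l) i j)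
      (Finset.mem_univ k),
    ← Finset.add_sum_erase Finset.univ
      (fun l : κ => sgo (Function.update x k s) (some l) * P.a h w (some l) i j)
      (Finset.mem_univ k)]
  have e1 : ∑ l ∈ Finset.univ.erase k, sgo x (some l) * P.ra k s h w (some l) i j
      = ∑ l ∈ Finset.univ.erase k, sgo (Function.update x k s) (some l) * P.a h w (some l) i j := by
    refine Finset.sum_congr rfl fun l hl => ?_
    have hl' := Finset.ne_of_mem_erase hl
    rw [P.ra_ne k l s h w hl']
    simp only [sgo, sg]
    rw [Function.update_of_ne hl']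
  rw [e1, ra_self]
  simp only [sgo, sg, Function.update_self]
  ring

lemma A_res (k : κ) (s : ℤˣ) (h : List W) (x : κ → ℤˣ) :
    (P.res k s).A h x = P.A h (Function.update x k s) := by
  induction h with
  | nil => rfl
  | cons w h ih =>
    simp only [A]
    rw [ih, Q_res]

lemma out_res (T : ℕ) (g : List W → ℝ) (k : κ) (s : ℤˣ) :
    (P.res k s).out T g = fr k s (P.out T g) := by
  funext x
  unfold out fr
  simp_rw [A_res]

lemma p_res (k : κ) (h : List W) :
    (P.res k 1).p h + (P.res k (-1)).p h = 2 * P.p h := by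
  unfold p
  rw [Ex_split k (fun x => nsq (P.A h x))]
  simp_rw [A_res]
  unfold fr
  ring

lemma tau_res (k : κ) (s : ℤˣ) (h : List W) (l : κ) :
    (P.res k s).tau h (some l) = if l = k then 0 else P.tau h (some l) := by
  unfold tau
  change ∑ w, hs (P.ra k s h w (some l)) = _
  split_ifs with hl
  · subst hl
    simp [ra_self, hs]
  · simp_rw [P.ra_ne k l s h _ hl]

lemma del_res (k : κ) (t : ℕ) (l : κ) :
    (P.res k 1).del t l + (P.res k (-1)).del t l = if l = k then 0 else 2 * P.del t l := by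
  unfold del
  rw [← S_add]
  simp_rw [tau_res]
  split_ifs with hl
  · simp [S_zero_fun]
  · rw [← S_mul_left]
    refine S_congr' t fun h _ => ?_
    have := P.p_res k h
    linear_combination P.tau h (some l) * this

/-- The potential. -/
noncomputable def Pot (T : ℕ) : ℝ := ∑ t ∈ Finset.range T, ∑ k, P.del t k

lemma Pot_nonneg (T : ℕ) : 0 ≤ P.Pot T :=
  Finset.sum_nonneg fun t _ => Finset.sum_nonneg fun k _ => P.del_nonneg t k

lemma Pot_le (T : ℕ) : P.Pot T ≤ T * Fintype.card ι := by
  calc P.Pot T ≤ ∑ _t ∈ Finset.range T, (Fintype.card ι : ℝ) :=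
        Finset.sum_le_sum fun t _ => P.sum_del t
    _ = _ := by simp

lemma Pot_res (T : ℕ) (k : κ) :
    (P.res k 1).Pot T + (P.res k (-1)).Pot T = 2 * (P.Pot T - ∑ t ∈ Finset.range T, P.del t k) := by
  unfold Pot
  rw [← Finset.sum_add_distrib, ← Finset.sum_sub_distrib, Finset.mul_sum]
  refine Finset.sum_congr rfl fun t _ => ?_
  rw [← Finset.sum_add_distrib]
  simp_rw [del_res]
  rw [← Finset.add_sum_erase Finset.univ (fun l : κ => if l = k then (0 : ℝ) else 2 * P.del t l)
      (Finset.mem_univ k), if_pos rfl, zero_add,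
    ← Finset.add_sum_erase Finset.univ (fun l : κ => P.del t l) (Finset.mem_univ k),
    add_sub_cancel_left, Finset.mul_sum]
  refine Finset.sum_congr rfl fun l hl => ?_
  rw [if_neg (Finset.ne_of_mem_erase hl)]

lemma del_dead (t : ℕ) (l : κ) (hl : ∀ h w, P.a h w (some l) = fun _ _ => 0) : P.del t l = 0 := by
  unfold del tau
  simp_rw [hl]
  simp [hs, S_zero_fun]

lemma out_nonneg (T : ℕ) (g : List W → ℝ) (hg0 : ∀ a, 0 ≤ g a) (x : κ → ℤˣ) : 0 ≤ P.out T g x :=
  S_nonneg T fun a => mul_nonneg (hg0 a) (nsq_nonneg _)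

lemma out_le (T : ℕ) (g : List W → ℝ) (hg1 : ∀ a, g a ≤ 1) (x : κ → ℤˣ) : P.out T g x ≤ 1 := by
  rw [← P.out_one T x]
  unfold out
  exact S_mono T fun a => mul_le_mul_of_nonneg_right (hg1 a) (nsq_nonneg _)

/-- The covariance bound. -/
theorem cov_bound [Nonempty ι] (c : ℝ) (hc : 0 < c) (T : ℕ) (hT : 1 ≤ T)
    (g : List W → ℝ) (hg0 : ∀ a, 0 ≤ g a) (hg1 : ∀ a, g a ≤ 1)
    (h : (κ → ℤˣ) → ℝ) (I : ℝ) (hI : ∀ l, Real.sqrt (Inf h l) ≤ I) (hI0 : 0 ≤ I) :
    ∀ (n : ℕ) (L : Finset κ) (P : Pr κ ι W), Lᶜ.card = n →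
      (∀ l ∈ L, ∀ h w, P.a h w (some l) = fun _ _ => 0) →
      |Cov (P.out T g) h| ≤ Real.sqrt (192 * (T : ℝ) ^ 4 * Fintype.card ι * c) * Real.sqrt (Cov h h)
        + P.Pot T / (2 * c ^ 3) * I := by
  intro n
  induction n with
  | zero =>
    intro L P hn hL
    have hlight := P.light c hc T hT (fun t _ k => by
      have hk : k ∈ L := by
        by_contra hk
        have : k ∈ Lᶜ := Finset.mem_compl.2 hk
        rw [Finset.card_eq_zero.1 hn] at this
        simp at this
      rw [P.del_dead t k (hL k hk)]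
      positivity) g hg0 hg1
    have h1 := abs_Cov_le (P.out T g) h
    have h2 : Real.sqrt (Cov (P.out T g) (P.out T g)) * Real.sqrt (Cov h h)
        ≤ Real.sqrt (192 * (T : ℝ) ^ 4 * Fintype.card ι * c) * Real.sqrt (Cov h h) :=
      mul_le_mul_of_nonneg_right (Real.sqrt_le_sqrt hlight) (Real.sqrt_nonneg _)
    have h3 : 0 ≤ P.Pot T / (2 * c ^ 3) * I :=
      mul_nonneg (div_nonneg (P.Pot_nonneg T) (by positivity)) hI0
    linarith
  | succ n ih =>
    intro L P hn hL
    by_cases hlt : ∀ t < T, ∀ k, P.del t k ≤ c ^ 3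
    · have hlight := P.light c hc T hT hlt g hg0 hg1
      have h1 := abs_Cov_le (P.out T g) h
      have h2 : Real.sqrt (Cov (P.out T g) (P.out T g)) * Real.sqrt (Cov h h)
          ≤ Real.sqrt (192 * (T : ℝ) ^ 4 * Fintype.card ι * c) * Real.sqrt (Cov h h) :=
        mul_le_mul_of_nonneg_right (Real.sqrt_le_sqrt hlight) (Real.sqrt_nonneg _)
      have h3 : 0 ≤ P.Pot T / (2 * c ^ 3) * I :=
        mul_nonneg (div_nonneg (P.Pot_nonneg T) (by positivity)) hI0
      linarith
    · push Not at hlt
      obtain ⟨t, ht, k, hk⟩ := hlt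
      have hkL : k ∉ L := by
        intro hkL
        rw [P.del_dead t k (hL k hkL)] at hk
        have : 0 < c ^ 3 := by positivity
        linarith
      have hcard : (insert k L)ᶜ.card = n := by
        have h1 := Finset.card_compl_add_card L
        have h2 := Finset.card_compl_add_card (insert k L)
        rw [Finset.card_insert_of_notMem hkL] at h2
        omega
      have hdead : ∀ s : ℤˣ, ∀ l ∈ insert k L, ∀ h w, (P.res k s).a h w (some l) = fun _ _ => 0 := by
        intro s l hl h w
        change P.ra k s h w (some l) = _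
        by_cases hlk : l = k
        · subst hlk
          exact P.ra_self l s h w
        · rw [P.ra_ne k l s h w hlk]
          exact hL l (Finset.mem_of_mem_insert_of_ne hl hlk) h w
      have i1 := ih (insert k L) (P.res k 1) hcard (hdead 1)
      have i2 := ih (insert k L) (P.res k (-1)) hcard (hdead (-1))
      rw [out_res] at i1 i2
      have hsplit := Cov_split (P.out T g) h k
      have hq : |Ex (fun x => sg x k * D (P.out T g) k x * h x)| ≤ 1 / 2 * I := by
        refine (abs_Ex_sg_mul_le k (D (P.out T g) k) h (fun x u => D_update _ k x u)).trans ?_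
        refine mul_le_mul ?_ (hI k) (Real.sqrt_nonneg _) (by norm_num)
        rw [Real.sqrt_le_left (by norm_num)]
        refine Ex_le_const fun x => ?_
        have := abs_D_le (P.out T g) (P.out_nonneg T g hg0) (P.out_le T g hg1) k x
        rw [← sq_abs]
        exact pow_le_pow_left₀ (abs_nonneg _) this 2
      have hPot := P.Pot_res T k
      have hdk : c ^ 3 ≤ ∑ t ∈ Finset.range T, P.del t k :=
        hk.le.trans (Finset.single_le_sum (f := fun t => P.del t k)
          (fun t _ => P.del_nonneg t k) (Finset.mem_range.2 ht))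
      have hc3 : 0 < 2 * c ^ 3 := by positivity
      have hfin : ((P.res k 1).Pot T / (2 * c ^ 3) * I + (P.res k (-1)).Pot T / (2 * c ^ 3) * I) / 2
          + 1 / 2 * I ≤ P.Pot T / (2 * c ^ 3) * I := by
        have e : ((P.res k 1).Pot T / (2 * c ^ 3) * I + (P.res k (-1)).Pot T / (2 * c ^ 3) * I) / 2
            = (P.Pot T - ∑ t ∈ Finset.range T, P.del t k) / (2 * c ^ 3) * I := by
          have : (P.res k 1).Pot T / (2 * c ^ 3) * I + (P.res k (-1)).Pot T / (2 * c ^ 3) * I
              = ((P.res k 1).Pot T + (P.res k (-1)).Pot T) / (2 * c ^ 3) * I := by ring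
          rw [this, hPot]; ring
        rw [e]
        have h5 : (P.Pot T - ∑ t ∈ Finset.range T, P.del t k) / (2 * c ^ 3)
            ≤ P.Pot T / (2 * c ^ 3) - 1 / 2 := by
          rw [div_le_iff₀ hc3, sub_mul, div_mul_cancel₀ _ hc3.ne']
          linarith
        have h6 := mul_le_mul_of_nonneg_right h5 hI0
        linarith
      rw [hsplit]
      calc |(Cov (fr k 1 (P.out T g)) h + Cov (fr k (-1) (P.out T g)) h) / 2
            + Ex (fun x => sg x k * D (P.out T g) k x * h x)|
          ≤ |(Cov (fr k 1 (P.out T g)) h + Cov (fr k (-1) (P.out T g)) h) / 2|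
            + |Ex (fun x => sg x k * D (P.out T g) k x * h x)| := abs_add_le _ _
        _ ≤ (|Cov (fr k 1 (P.out T g)) h| + |Cov (fr k (-1) (P.out T g)) h|) / 2
            + |Ex (fun x => sg x k * D (P.out T g) k x * h x)| := by
            rw [abs_div, abs_of_pos (by norm_num : (0 : ℝ) < 2)]
            have := abs_add_le (Cov (fr k 1 (P.out T g)) h) (Cov (fr k (-1) (P.out T g)) h)
            linarith
        _ ≤ _ := by linarith

/-- Influential coordinates of processes with a bounded memory. -/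
theorem main [Nonempty ι] (T : ℕ) (hT : 1 ≤ T) (g : List W → ℝ) (hg0 : ∀ a, 0 ≤ g a)
    (hg1 : ∀ a, g a ≤ 1) (hV : 0 < Cov (P.out T g) (P.out T g)) :
    ∃ l, (Cov (P.out T g) (P.out T g) ^ 4
      / (27 * 2 ^ 24 * (T : ℝ) ^ 13 * (Fintype.card ι : ℝ) ^ 4)) ^ 2 ≤ Inf (P.out T g) l := by
  set f := P.out T g with hf
  set V := Cov f f with hVdef
  set m : ℝ := (Fintype.card ι : ℝ) with hm
  have hm0 : 0 < m := by rw [hm]; exact_mod_cast Fintype.card_pos
  have hT0 : (0 : ℝ) < T := by exact_mod_cast hT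
  set c : ℝ := V / (768 * (T : ℝ) ^ 4 * m) with hc
  have hc0 : 0 < c := by positivity
  have hsq : Real.sqrt (192 * (T : ℝ) ^ 4 * m * c) * Real.sqrt V = V / 2 := by
    have e : 192 * (T : ℝ) ^ 4 * m * c = (Real.sqrt V / 2) ^ 2 := by
      rw [div_pow, Real.sq_sqrt hV.le, hc]
      field_simp
      norm_num
    rw [e, Real.sqrt_sq (by positivity), div_mul_eq_mul_div, Real.mul_self_sqrt hV.le]
  have key : ∀ I : ℝ, 0 ≤ I → (∀ l, Real.sqrt (Inf f l) ≤ I) →
      V ^ 4 / (27 * 2 ^ 24 * (T : ℝ) ^ 13 * m ^ 4) ≤ I := by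
    intro I hI0 hI
    have h1 := cov_bound c hc0 T hT g hg0 hg1 f I hI hI0 (∅ᶜ : Finset κ).card ∅ P rfl (by simp)
    rw [← hf, ← hVdef, abs_of_pos hV, ← hm, hsq] at h1
    have h2 := P.Pot_le T
    rw [← hm] at h2
    have hc3 : 0 < 2 * c ^ 3 := by positivity
    have h3 : P.Pot T / (2 * c ^ 3) * I ≤ (T * m) / (2 * c ^ 3) * I :=
      mul_le_mul_of_nonneg_right (div_le_div_of_nonneg_right h2 hc3.le) hI0
    have h4 : V / 2 ≤ (T * m) / (2 * c ^ 3) * I := by linarith
    have h5 : V * c ^ 3 ≤ T * m * I := by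
      have h6 := mul_le_mul_of_nonneg_right h4 hc3.le
      have e1 : V / 2 * (2 * c ^ 3) = V * c ^ 3 := by ring
      have e2 : (T * m) / (2 * c ^ 3) * I * (2 * c ^ 3) = T * m * I := by
        field_simp
      linarith
    have e3 : V * c ^ 3 = T * m * (V ^ 4 / (27 * 2 ^ 24 * (T : ℝ) ^ 13 * m ^ 4)) := by
      rw [hc]
      field_simp
      norm_num
    rw [e3] at h5
    exact le_of_mul_le_mul_left h5 (by positivity)
  rcases isEmpty_or_nonempty κ with hκ | hκ
  · exfalso
    have := key 0 le_rfl (fun l => (IsEmpty.false l).elim)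
    have h2 : 0 < V ^ 4 / (27 * 2 ^ 24 * (T : ℝ) ^ 13 * m ^ 4) := by positivity
    linarith
  · obtain ⟨l, _, hl⟩ := Finset.exists_max_image (Finset.univ : Finset κ) (fun l => Inf f l)
      Finset.univ_nonempty
    refine ⟨l, ?_⟩
    have h1 := key (Real.sqrt (Inf f l)) (Real.sqrt_nonneg _)
      (fun l' => Real.sqrt_le_sqrt (hl l' (Finset.mem_univ _)))
    calc _ ≤ Real.sqrt (Inf f l) ^ 2 := pow_le_pow_left₀ (by positivity) h1 2
      _ = _ := Real.sq_sqrt (Inf_nonneg f l)

end Pr

end Pool.Agent.H703R2.AA
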