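import Pool.Agent.H746R2.AA.Basic

/-!
# Expectations over pairs of correlated points of the cube
-/

set_option autoImplicit false
set_option linter.unusedSectionVars false

namespace Pool.Agent.H703R2.AA

open Finset Pool.Agent.H722R2.AA Pool.Agent.H746R2.AA

variable {κ : Type*} [Fintype κ] [DecidableEq κ]

/-- Flip the coordinate `k`. -/
def fl (k : κ) (x : κ → ℤˣ) : κ → ℤˣ := Function.update x k (-(x k))

lemma fl_fl (k : κ) (x : κ → ℤˣ) : fl k (fl k x) = x := by
  unfold fl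
  simp

lemma sum_fl (k : κ) (φ : (κ → ℤˣ) → ℝ) : ∑ x, φ (fl k x) = ∑ x, φ x := by
  refine Finset.sum_nbij' (fl k) (fl k) (by simp) (by simp) ?_ ?_ ?_
  · intro x _; exact fl_fl k x
  · intro x _; exact fl_fl k x
  · intro x _; rfl

lemma sg_fl_self (k : κ) (x : κ → ℤˣ) : sg (fl k x) k = - sg x k := by
  unfold sg fl
  rw [Function.update_self]
  push_cast
  ring

lemma sg_fl_ne {j k : κ} (h : j ≠ k) (x : κ → ℤˣ) : sg (fl k x) j = sg x j := by
  unfold sg fl
  rw [Function.update_of_ne h]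

lemma sg_sq (x : κ → ℤˣ) (k : κ) : sg x k * sg x k = 1 := by
  rcases sg_cases x k with h | h <;> rw [h] <;> norm_num

lemma Ex_fl (k : κ) (φ : (κ → ℤˣ) → ℝ) : Ex (fun x => φ (fl k x)) = Ex φ := by
  unfold Ex
  rw [sum_fl]

lemma D_fl (F : (κ → ℤˣ) → ℝ) (k : κ) (x : κ → ℤˣ) :
    D F k x = sg x k * (F x - F (fl k x)) / 2 := by
  unfold D fl sg
  rcases Int.units_eq_one_or (x k) with h2 | h2
  · have h3 : Function.update x k 1 = x := by rw [← h2, Function.update_eq_self]
    rw [h3, h2]; push_cast; ring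
  · have h3 : Function.update x k (-1) = x := by rw [← h2, Function.update_eq_self]
    rw [h3, h2]; push_cast
    rw [neg_neg]; ring

lemma D_fl_eq (F : (κ → ℤˣ) → ℝ) (k : κ) (x : κ → ℤˣ) : D F k (fl k x) = D F k x := by
  rw [D_fl, D_fl, sg_fl_self, fl_fl]; ring

/-- The weight of a pair. -/
noncomputable def wt (r : ℝ) (x y : κ → ℤˣ) : ℝ := ∏ k, ((1 + r * (sg x k * sg y k)) / 4)

/-- The expectation over `r`-correlated pairs. -/
noncomputable def PE (r : ℝ) (H : (κ → ℤˣ) → (κ → ℤˣ) → ℝ) : ℝ := ∑ x, ∑ y, wt r x y * H x y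

lemma sg_mul_cases (x y : κ → ℤˣ) (k : κ) : sg x k * sg y k = 1 ∨ sg x k * sg y k = -1 := by
  rcases sg_cases x k with h | h <;> rcases sg_cases y k with h' | h' <;> rw [h, h'] <;> norm_num

lemma wt_nonneg {r : ℝ} (h0 : 0 ≤ r) (h1 : r ≤ 1) (x y : κ → ℤˣ) : 0 ≤ wt r x y := by
  unfold wt
  refine Finset.prod_nonneg fun k _ => ?_
  rcases sg_mul_cases x y k with h | h <;> rw [h] <;> linarith

lemma wt_comm (r : ℝ) (x y : κ → ℤˣ) : wt r x y = wt r y x := by
  unfold wt
  refine Finset.prod_congr rfl fun k _ => ?_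
  rw [mul_comm (sg x k)]

lemma wt_fl (r : ℝ) (k : κ) (x y : κ → ℤˣ) : wt r (fl k x) (fl k y) = wt r x y := by
  unfold wt
  refine Finset.prod_congr rfl fun j _ => ?_
  by_cases h : j = k
  · subst h
    rw [sg_fl_self, sg_fl_self]; ring
  · rw [sg_fl_ne h, sg_fl_ne h]

lemma sum_wt (r : ℝ) (x : κ → ℤˣ) : ∑ y, wt r x y = 1 / (2 : ℝ) ^ Fintype.card κ := by
  have h := Finset.prod_univ_sum (fun _ : κ => (Finset.univ : Finset ℤˣ))
    (fun k (u : ℤˣ) => (1 + r * (sg x k * ((u : ℤ) : ℝ))) / 4)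
  rw [Fintype.piFinset_univ] at h
  have e : ∀ y : κ → ℤˣ, wt r x y = ∏ k, (1 + r * (sg x k * (((y k : ℤˣ) : ℤ) : ℝ))) / 4 := fun y => rfl
  simp_rw [e]
  rw [← h]
  have h2 : ∀ k : κ, ∑ u : ℤˣ, (1 + r * (sg x k * ((u : ℤ) : ℝ))) / 4 = 1 / 2 := by
    intro k
    rw [UnitsInt.univ, Finset.sum_pair (by decide)]
    push_cast
    ring
  rw [Finset.prod_congr rfl fun k _ => h2 k, Finset.prod_const, Finset.card_univ, one_div_pow]

lemma PE_add (r : ℝ) (G H : (κ → ℤˣ) → (κ → ℤˣ) → ℝ) :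
    PE r (fun x y => G x y + H x y) = PE r G + PE r H := by
  unfold PE
  simp_rw [mul_add, Finset.sum_add_distrib]

lemma PE_mul_left (r c : ℝ) (H : (κ → ℤˣ) → (κ → ℤˣ) → ℝ) :
    PE r (fun x y => c * H x y) = c * PE r H := by
  unfold PE
  simp_rw [Finset.mul_sum]
  refine Finset.sum_congr rfl fun x _ => Finset.sum_congr rfl fun y _ => by ring

lemma PE_sum (r : ℝ) {τ : Type*} (s : Finset τ) (H : τ → (κ → ℤˣ) → (κ → ℤˣ) → ℝ) :
    PE r (fun x y => ∑ a ∈ s, H a x y) = ∑ a ∈ s, PE r (H a) := by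
  unfold PE
  simp_rw [Finset.mul_sum]
  rw [Finset.sum_comm]
  conv_lhs =>
    enter [2, y]
    rw [Finset.sum_comm]
  rw [Finset.sum_comm]
  refine Finset.sum_congr rfl fun a _ => ?_
  rw [Finset.sum_comm]

lemma PE_mono {r : ℝ} (h0 : 0 ≤ r) (h1 : r ≤ 1) {G H : (κ → ℤˣ) → (κ → ℤˣ) → ℝ}
    (h : ∀ x y, G x y ≤ H x y) : PE r G ≤ PE r H := by
  unfold PE
  exact Finset.sum_le_sum fun x _ => Finset.sum_le_sum fun y _ =>
    mul_le_mul_of_nonneg_left (h x y) (wt_nonneg h0 h1 x y)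

lemma PE_nonneg {r : ℝ} (h0 : 0 ≤ r) (h1 : r ≤ 1) {H : (κ → ℤˣ) → (κ → ℤˣ) → ℝ}
    (h : ∀ x y, 0 ≤ H x y) : 0 ≤ PE r H := by
  unfold PE
  exact Finset.sum_nonneg fun x _ => Finset.sum_nonneg fun y _ =>
    mul_nonneg (wt_nonneg h0 h1 x y) (h x y)

lemma PE_congr {r : ℝ} {G H : (κ → ℤˣ) → (κ → ℤˣ) → ℝ} (h : ∀ x y, G x y = H x y) :
    PE r G = PE r H := by
  have : G = H := by funext x y; exact h x y
  rw [this]

lemma PE_left (r : ℝ) (F : (κ → ℤˣ) → ℝ) : PE r (fun x _ => F x) = Ex F := by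
  unfold PE Ex
  simp_rw [← Finset.sum_mul, sum_wt]
  rw [← Finset.mul_sum, one_div, div_eq_inv_mul]

lemma PE_right (r : ℝ) (F : (κ → ℤˣ) → ℝ) : PE r (fun _ y => F y) = Ex F := by
  rw [← PE_left r F]
  unfold PE
  rw [Finset.sum_comm]
  refine Finset.sum_congr rfl fun x _ => Finset.sum_congr rfl fun y _ => by rw [wt_comm]

lemma PE_const (r c : ℝ) : PE (κ := κ) r (fun _ _ => c) = c := by
  rw [PE_left r (fun _ => c), Ex_const]

lemma PE_fl (r : ℝ) (k : κ) (H : (κ → ℤˣ) → (κ → ℤˣ) → ℝ) :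
    PE r (fun x y => H (fl k x) (fl k y)) = PE r H := by
  unfold PE
  rw [← sum_fl k (fun x => ∑ y, wt r x y * H x y)]
  refine Finset.sum_congr rfl fun x _ => ?_
  beta_reduce
  rw [← sum_fl k (fun y => wt r (fl k x) y * H (fl k x) y)]
  refine Finset.sum_congr rfl fun y _ => ?_
  beta_reduce
  rw [wt_fl]

lemma wt_one (x y : κ → ℤˣ) : wt 1 x y = if x = y then 1 / (2 : ℝ) ^ Fintype.card κ else 0 := by
  unfold wt
  split_ifs with h
  · subst h
    have : ∀ k : κ, (1 + 1 * (sg x k * sg x k)) / 4 = (1 / 2 : ℝ) := by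
      intro k; rw [sg_sq]; norm_num
    rw [Finset.prod_congr rfl fun k _ => this k, Finset.prod_const, Finset.card_univ, one_div_pow]
  · obtain ⟨k, hk⟩ := Function.ne_iff.1 h
    refine Finset.prod_eq_zero (Finset.mem_univ k) ?_
    have : sg x k * sg y k = -1 := by
      unfold sg
      rcases Int.units_eq_one_or (x k) with h2 | h2 <;> rcases Int.units_eq_one_or (y k) with h3 | h3
      · exact absurd (h2.trans h3.symm) hk
      · rw [h2, h3]; norm_num
      · rw [h2, h3]; norm_num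
      · exact absurd (h2.trans h3.symm) hk
    rw [this]; norm_num

lemma PE_one (H : (κ → ℤˣ) → (κ → ℤˣ) → ℝ) : PE 1 H = Ex (fun x => H x x) := by
  unfold PE Ex
  simp_rw [wt_one, ite_mul, zero_mul]
  simp only [Finset.sum_ite_eq, Finset.mem_univ, if_true]
  rw [← Finset.mul_sum, one_div, div_eq_inv_mul]

lemma PE_zero (H : (κ → ℤˣ) → (κ → ℤˣ) → ℝ) :
    PE 0 H = Ex (fun x => Ex (fun y => H x y)) := by
  unfold PE Ex
  have h : ∀ x y : κ → ℤˣ, wt 0 x y = 1 / ((2 : ℝ) ^ Fintype.card κ * 2 ^ Fintype.card κ) := by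
    intro x y
    unfold wt
    rw [← mul_pow]
    simp only [zero_mul, add_zero]
    rw [Finset.prod_const, Finset.card_univ, one_div_pow]
    norm_num
  simp_rw [h, ← Finset.mul_sum, ← Finset.sum_div]
  rw [div_div, one_div, div_eq_inv_mul]

/-- The derivative of the correlation. -/
lemma hasDerivAt_PE (F G : (κ → ℤˣ) → ℝ) (r : ℝ) :
    HasDerivAt (fun r => PE r (fun x y => F x * G y))
      (∑ k, PE r (fun x y => D F k x * D G k y)) r := by
  set C : κ → (κ → ℤˣ) → (κ → ℤˣ) → ℝ := fun k x y =>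
    ∏ j ∈ Finset.univ.erase k, ((1 + r * (sg x j * sg y j)) / 4) with hC
  have hCx : ∀ k x y, C k (fl k x) y = C k x y := by
    intro k x y
    refine Finset.prod_congr rfl fun j hj => ?_
    rw [sg_fl_ne (Finset.ne_of_mem_erase hj)]
  have hCy : ∀ k x y, C k x (fl k y) = C k x y := by
    intro k x y
    refine Finset.prod_congr rfl fun j hj => ?_
    rw [sg_fl_ne (Finset.ne_of_mem_erase hj)]
  have hw : ∀ x y : κ → ℤˣ, HasDerivAt (fun r => wt r x y)
      (∑ k, C k x y * ((sg x k * sg y k) / 4)) r := by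
    intro x y
    have := HasDerivAt.fun_finsetProd (u := (Finset.univ : Finset κ)) (x := r)
      (f := fun k r => (1 + r * (sg x k * sg y k)) / 4)
      (f' := fun k => (sg x k * sg y k) / 4) (fun k _ => by
        have h1 : HasDerivAt (fun r : ℝ => (1 + r * (sg x k * sg y k)) / 4)
            ((1 * (sg x k * sg y k)) / 4) r :=
          ((hasDerivAt_id r).mul_const _ |>.const_add 1).div_const 4
        simpa using h1)
    simpa [wt, hC, smul_eq_mul] using this
  have h1 : HasDerivAt (fun r => PE r (fun x y => F x * G y))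
      (∑ x, ∑ y, (∑ k, C k x y * ((sg x k * sg y k) / 4)) * (F x * G y)) r := by
    unfold PE
    exact HasDerivAt.fun_sum fun x _ => HasDerivAt.fun_sum fun y _ => (hw x y).mul_const _
  convert h1 using 1
  -- reorganise
  have h2 : ∑ x, ∑ y, (∑ k, C k x y * ((sg x k * sg y k) / 4)) * (F x * G y)
      = ∑ k, ∑ x, ∑ y, C k x y * ((sg x k * sg y k) / 4) * (F x * G y) := by
    simp_rw [Finset.sum_mul]
    rw [Finset.sum_comm]
    conv_lhs =>
      enter [2, y]
      rw [Finset.sum_comm]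
    rw [Finset.sum_comm]
    refine Finset.sum_congr rfl fun a _ => ?_
    rw [Finset.sum_comm]
  rw [h2]
  refine Finset.sum_congr rfl fun k _ => ?_
  -- one-variable identity
  have key : ∀ (c : (κ → ℤˣ) → ℝ) (F : (κ → ℤˣ) → ℝ), (∀ x, c (fl k x) = c x) →
      ∑ x, c x * sg x k * F x = ∑ x, c x * D F k x := by
    intro c F hc
    have e1 : ∑ x, c x * sg x k * F x
        = (∑ x, c x * sg x k * F x + ∑ x, c (fl k x) * sg (fl k x) k * F (fl k x)) / 2 := by
      rw [sum_fl k (fun x => c x * sg x k * F x)]; ring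
    rw [e1, ← Finset.sum_add_distrib, Finset.sum_div]
    refine Finset.sum_congr rfl fun x _ => ?_
    rw [hc, sg_fl_self, D_fl]; ring
  have key0 : ∀ (c : (κ → ℤˣ) → ℝ) (F : (κ → ℤˣ) → ℝ), (∀ x, c (fl k x) = c x) →
      ∑ x, c x * sg x k * D F k x = 0 := by
    intro c F hc
    have e1 : ∑ x, c x * sg x k * D F k x
        = (∑ x, c x * sg x k * D F k x
          + ∑ x, c (fl k x) * sg (fl k x) k * D F k (fl k x)) / 2 := by
      rw [sum_fl k (fun x => c x * sg x k * D F k x)]; ring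
    rw [e1, ← Finset.sum_add_distrib]
    have : ∀ x : κ → ℤˣ, c x * sg x k * D F k x + c (fl k x) * sg (fl k x) k * D F k (fl k x) = 0 := by
      intro x
      rw [hc, sg_fl_self, D_fl_eq]; ring
    rw [Finset.sum_congr rfl fun x _ => this x]
    simp
  have hwC : ∀ x y : κ → ℤˣ, wt r x y = (1 + r * (sg x k * sg y k)) / 4 * C k x y := by
    intro x y
    rw [hC]
    unfold wt
    exact (Finset.mul_prod_erase Finset.univ _ (Finset.mem_univ k)).symm
  have hL : ∑ x, ∑ y, C k x y * ((sg x k * sg y k) / 4) * (F x * G y)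
      = (∑ x, ∑ y, C k x y * (D F k x * D G k y)) / 4 := by
    have s1 : ∀ x : κ → ℤˣ, ∑ y, C k x y * ((sg x k * sg y k) / 4) * (F x * G y)
        = sg x k * F x / 4 * ∑ y, C k x y * D G k y := by
      intro x
      rw [← key (fun y => C k x y) G (fun y => hCy k x y), Finset.mul_sum]
      refine Finset.sum_congr rfl fun y _ => by ring
    simp_rw [s1]
    have s2 : ∀ x : κ → ℤˣ, sg x k * F x / 4 * ∑ y, C k x y * D G k y
        = ((∑ y, C k x y * D G k y) * sg x k * F x) / 4 := fun x => by ring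
    simp_rw [s2, ← Finset.sum_div]
    rw [key (fun x => ∑ y, C k x y * D G k y) F (fun x => by simp_rw [hCx])]
    congr 1
    refine Finset.sum_congr rfl fun x _ => ?_
    rw [Finset.sum_mul]
    refine Finset.sum_congr rfl fun y _ => by ring
  rw [hL]
  unfold PE
  have s3 : ∀ x y : κ → ℤˣ, wt r x y * (D F k x * D G k y)
      = C k x y * (D F k x * D G k y) / 4 + r / 4 * (C k x y * sg x k * sg y k * (D F k x * D G k y)) := by
    intro x y
    rw [hwC]; ring
  simp_rw [s3, Finset.sum_add_distrib, ← Finset.mul_sum, ← Finset.sum_div]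
  have s4 : ∑ x, ∑ y, C k x y * sg x k * sg y k * (D F k x * D G k y) = 0 := by
    have : ∀ x : κ → ℤˣ, ∑ y, C k x y * sg x k * sg y k * (D F k x * D G k y)
        = (sg x k * D F k x) * ∑ y, C k x y * sg y k * D G k y := by
      intro x
      rw [Finset.mul_sum]
      refine Finset.sum_congr rfl fun y _ => by ring
    simp_rw [this]
    refine Finset.sum_eq_zero fun x _ => ?_
    rw [key0 (fun y => C k x y) G (fun y => hCy k x y), mul_zero]
  rw [s4]; ring

end Pool.Agent.H703R2.AA
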