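import Pool.Agent.H703R2.AA.Pair

/-!
# Real query processes with a bounded memory
-/

set_option autoImplicit false
set_option linter.unusedSectionVars false

namespace Pool.Agent.H703R2.AA

open Finset Pool.Agent.H722R2.AA Pool.Agent.H746R2.AA

/-! ### Sums over histories -/

section HistorySums

variable {W : Type*} [Fintype W]

/-- The sum over all histories of length `t` (most recent outcome first). -/
noncomputable def S : ℕ → (List W → ℝ) → ℝ
  | 0, F => F []
  | t + 1, F => S t (fun h => ∑ w, F (w :: h))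

lemma S_add (t : ℕ) (F G : List W → ℝ) : S t (fun h => F h + G h) = S t F + S t G := by
  induction t generalizing F G with
  | zero => rfl
  | succ t ih =>
    simp only [S]
    simp_rw [Finset.sum_add_distrib]
    exact ih _ _

lemma S_mul_left (t : ℕ) (c : ℝ) (F : List W → ℝ) : S t (fun h => c * F h) = c * S t F := by
  induction t generalizing F with
  | zero => rfl
  | succ t ih =>
    simp only [S]
    simp_rw [← Finset.mul_sum]
    exact ih _

lemma S_mono' (t : ℕ) {F G : List W → ℝ} (H : ∀ h : List W, h.length = t → F h ≤ G h) :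
    S t F ≤ S t G := by
  induction t generalizing F G with
  | zero => exact H [] rfl
  | succ t ih =>
    simp only [S]
    refine ih fun h hh => Finset.sum_le_sum fun w _ => H _ ?_
    simp [hh]

lemma S_mono (t : ℕ) {F G : List W → ℝ} (H : ∀ h : List W, F h ≤ G h) : S t F ≤ S t G :=
  S_mono' t fun h _ => H h

lemma S_congr' (t : ℕ) {F G : List W → ℝ} (H : ∀ h : List W, h.length = t → F h = G h) :
    S t F = S t G :=
  le_antisymm (S_mono' t fun h hh => (H h hh).le) (S_mono' t fun h hh => (H h hh).ge)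

lemma S_zero_fun (t : ℕ) : S t (fun _ : List W => (0 : ℝ)) = 0 := by
  have := S_mul_left t 0 (fun _ : List W => (0 : ℝ))
  simpa using this

lemma S_nonneg (t : ℕ) {F : List W → ℝ} (H : ∀ h : List W, 0 ≤ F h) : 0 ≤ S t F := by
  rw [← S_zero_fun (W := W) t]
  exact S_mono t H

lemma S_sum (t : ℕ) {τ : Type*} (s : Finset τ) (F : τ → List W → ℝ) :
    S t (fun h => ∑ a ∈ s, F a h) = ∑ a ∈ s, S t (F a) := by
  induction t generalizing F with
  | zero => rfl
  | succ t ih =>
    simp only [S]
    rw [← ih]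
    refine S_congr' t fun h _ => ?_
    rw [Finset.sum_comm]

lemma S_S_comm (s t : ℕ) (F : List W → List W → ℝ) :
    S s (fun a => S t (fun b => F a b)) = S t (fun b => S s (fun a => F a b)) := by
  induction s generalizing F with
  | zero => rfl
  | succ s ih =>
    simp only [S]
    have : ∀ h : List W, ∑ w, S t (fun b => F (w :: h) b) = S t (fun b => ∑ w, F (w :: h) b) :=
      fun h => (S_sum t Finset.univ (fun w b => F (w :: h) b)).symm
    simp_rw [this]
    exact ih _

lemma S_abs (t : ℕ) (F : List W → ℝ) : |S t F| ≤ S t (fun h => |F h|) := by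
  rw [abs_le]
  constructor
  · have : -S t (fun h => |F h|) = S t (fun h => -1 * |F h|) := by rw [S_mul_left]; ring
    rw [this]
    exact S_mono t fun h => by have := neg_abs_le (F h); linarith
  · exact S_mono t fun h => le_abs_self _

lemma S_peel (m T : ℕ) (hm : m ≤ T) (F : List W → ℝ)
    (H : ∀ a : List W, m ≤ a.length → ∑ w, F (w :: a) ≤ F a) : S T F ≤ S m F := by
  induction T, hm using Nat.le_induction with
  | base => exact le_rfl
  | succ T hT ih =>
    refine le_trans ?_ ih
    exact S_mono' T fun h hh => H h (by omega)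

lemma S_peel_eq (m T : ℕ) (hm : m ≤ T) (F : List W → ℝ)
    (H : ∀ a : List W, m ≤ a.length → ∑ w, F (w :: a) = F a) : S T F = S m F := by
  induction T, hm using Nat.le_induction with
  | base => rfl
  | succ T hT ih =>
    rw [← ih]
    exact S_congr' T fun h hh => H h (by omega)

lemma S_eq_ofFn (t : ℕ) (F : List W → ℝ) : S t F = ∑ a : Fin t → W, F (List.ofFn a) := by
  induction t generalizing F with
  | zero =>
    simp [S]
  | succ t ih =>
    simp only [S]
    rw [ih]
    rw [← (Fin.consEquiv (fun _ : Fin (t + 1) => W)).sum_comp, Fintype.sum_prod_type,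
      Finset.sum_comm]
    refine Finset.sum_congr rfl fun a _ => Finset.sum_congr rfl fun w _ => ?_
    congr 1
    simp [Fin.consEquiv, List.ofFn_succ]

variable {κ : Type*} [Fintype κ] [DecidableEq κ]

lemma Ex_S (t : ℕ) (F : List W → (κ → ℤˣ) → ℝ) :
    Ex (fun x => S t (fun h => F h x)) = S t (fun h => Ex (F h)) := by
  induction t generalizing F with
  | zero => rfl
  | succ t ih =>
    simp only [S]
    rw [ih (fun h x => ∑ w, F (w :: h) x)]
    refine S_congr' t fun h _ => ?_
    rw [Ex_sum]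

lemma PE_S (r : ℝ) (t : ℕ) (F : List W → (κ → ℤˣ) → (κ → ℤˣ) → ℝ) :
    PE r (fun x y => S t (fun h => F h x y)) = S t (fun h => PE r (F h)) := by
  induction t generalizing F with
  | zero => rfl
  | succ t ih =>
    simp only [S]
    rw [ih (fun h x y => ∑ w, F (w :: h) x y)]
    refine S_congr' t fun h _ => ?_
    rw [PE_sum]

end HistorySums

/-! ### Vectors -/

section Vec

variable {ι ι' : Type*} [Fintype ι] [Fintype ι']

/-- The squared norm. -/
def nsq (u : ι → ℝ) : ℝ := ∑ i, u i ^ 2

/-- The inner product. -/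
def dot (u v : ι → ℝ) : ℝ := ∑ i, u i * v i

/-- Matrix times vector. -/
def mv (m : ι → ι → ℝ) (u : ι → ℝ) (i : ι) : ℝ := ∑ j, m i j * u j

/-- The tensor product of two vectors. -/
def tn (u v : ι → ℝ) : ι × ι → ℝ := fun p => u p.1 * v p.2

lemma nsq_nonneg (u : ι → ℝ) : 0 ≤ nsq u := Finset.sum_nonneg fun _ _ => sq_nonneg _

lemma nsq_zero : nsq (0 : ι → ℝ) = 0 := by simp [nsq]

lemma nsq_add_le (u v : ι → ℝ) : nsq (u + v) ≤ 2 * nsq u + 2 * nsq v := by
  unfold nsq
  rw [Finset.mul_sum, Finset.mul_sum, ← Finset.sum_add_distrib]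
  refine Finset.sum_le_sum fun i _ => ?_
  rw [Pi.add_apply]
  nlinarith [sq_nonneg (u i - v i)]

lemma nsq_neg (u : ι → ℝ) : nsq (-u) = nsq u := by simp [nsq]

lemma nsq_sub_le (u v : ι → ℝ) : nsq (u - v) ≤ 2 * nsq u + 2 * nsq v := by
  rw [sub_eq_add_neg, ← nsq_neg v]
  exact nsq_add_le u (-v)

lemma nsq_smul (c : ℝ) (u : ι → ℝ) : nsq (c • u) = c ^ 2 * nsq u := by
  unfold nsq
  rw [Finset.mul_sum]
  refine Finset.sum_congr rfl fun i _ => ?_
  rw [Pi.smul_apply, smul_eq_mul]; ring

lemma nsq_sub_nsq (u v : ι → ℝ) : nsq u - nsq v = dot (u - v) (u + v) := by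
  unfold nsq dot
  rw [← Finset.sum_sub_distrib]
  refine Finset.sum_congr rfl fun i _ => ?_
  rw [Pi.sub_apply, Pi.add_apply]; ring

lemma dot_self (u : ι → ℝ) : dot u u = nsq u := by
  unfold dot nsq
  exact Finset.sum_congr rfl fun i _ => (sq _).symm

lemma dot_comm (u v : ι → ℝ) : dot u v = dot v u := by
  unfold dot
  exact Finset.sum_congr rfl fun i _ => mul_comm _ _

lemma dot_add_right (u v w : ι → ℝ) : dot u (v + w) = dot u v + dot u w := by
  unfold dot
  rw [← Finset.sum_add_distrib]
  exact Finset.sum_congr rfl fun i _ => by rw [Pi.add_apply]; ring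

lemma dot_smul_right (u v : ι → ℝ) (c : ℝ) : dot u (c • v) = c * dot u v := by
  unfold dot
  rw [Finset.mul_sum]
  exact Finset.sum_congr rfl fun i _ => by rw [Pi.smul_apply, smul_eq_mul]; ring

lemma dot_sum_left {τ : Type*} (s : Finset τ) (u : τ → ι → ℝ) (v : ι → ℝ) :
    dot (∑ a ∈ s, u a) v = ∑ a ∈ s, dot (u a) v := by
  unfold dot
  rw [Finset.sum_comm]
  refine Finset.sum_congr rfl fun i _ => ?_
  rw [Finset.sum_apply, Finset.sum_mul]

lemma dot_smul_left (u v : ι → ℝ) (c : ℝ) : dot (c • u) v = c * dot u v := by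
  rw [dot_comm, dot_smul_right, dot_comm]

lemma abs_dot_le (u v : ι → ℝ) (c : ℝ) (hc : 0 < c) :
    |dot u v| ≤ (c * nsq u + nsq v / c) / 2 := by
  have h : ∀ s : ℝ, s ^ 2 = 1 → s * dot u v ≤ (c * nsq u + nsq v / c) / 2 := by
    intro s hs
    have e : (c * nsq u + nsq v / c) / 2 - s * dot u v = ∑ i, (c * u i - s * v i) ^ 2 / (2 * c) := by
      unfold nsq dot
      rw [Finset.mul_sum, Finset.mul_sum, Finset.sum_div, ← Finset.sum_add_distrib, Finset.sum_div,
        ← Finset.sum_sub_distrib]
      refine Finset.sum_congr rfl fun i _ => ?_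
      field_simp
      linear_combination (-(v i) ^ 2) * hs
    have : 0 ≤ ∑ i, (c * u i - s * v i) ^ 2 / (2 * c) :=
      Finset.sum_nonneg fun i _ => by positivity
    linarith
  rw [abs_le]
  constructor
  · have := h (-1) (by norm_num); linarith
  · have := h 1 (by norm_num); linarith

lemma dot_tn (u v u' v' : ι → ℝ) : dot (tn u v) (tn u' v') = dot u u' * dot v v' := by
  unfold dot tn
  rw [Fintype.sum_prod_type, Finset.sum_mul_sum]
  refine Finset.sum_congr rfl fun i _ => Finset.sum_congr rfl fun j _ => by ring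

lemma nsq_tn (u v : ι → ℝ) : nsq (tn u v) = nsq u * nsq v := by
  rw [← dot_self, dot_tn, dot_self, dot_self]

lemma mv_add (m : ι → ι → ℝ) (u v : ι → ℝ) : mv m (u + v) = mv m u + mv m v := by
  funext i
  simp only [mv, Pi.add_apply, mul_add, Finset.sum_add_distrib]

lemma mv_sub (m : ι → ι → ℝ) (u v : ι → ℝ) : mv m (u - v) = mv m u - mv m v := by
  funext i
  simp only [mv, Pi.sub_apply, mul_sub, Finset.sum_sub_distrib]

lemma mv_smul (m : ι → ι → ℝ) (c : ℝ) (u : ι → ℝ) : mv m (c • u) = c • mv m u := by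
  funext i
  simp only [mv, Pi.smul_apply, smul_eq_mul, Finset.mul_sum]
  exact Finset.sum_congr rfl fun j _ => by ring

lemma mv_zero (m : ι → ι → ℝ) : mv m 0 = 0 := by
  funext i
  simp [mv]

lemma mv_sum {τ : Type*} (m : ι → ι → ℝ) (s : Finset τ) (u : τ → ι → ℝ) :
    mv m (∑ a ∈ s, u a) = ∑ a ∈ s, mv m (u a) := by
  classical
  induction s using Finset.induction_on with
  | empty => simp [mv_zero]
  | insert a s ha ih => rw [Finset.sum_insert ha, mv_add, ih, Finset.sum_insert ha]

/-- The squared Hilbert-Schmidt norm. -/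
def hs (m : ι → ι → ℝ) : ℝ := ∑ i, ∑ j, m i j ^ 2

lemma hs_nonneg (m : ι → ι → ℝ) : 0 ≤ hs m :=
  Finset.sum_nonneg fun _ _ => Finset.sum_nonneg fun _ _ => sq_nonneg _

lemma nsq_mv_le (m : ι → ι → ℝ) (u : ι → ℝ) : nsq (mv m u) ≤ hs m * nsq u := by
  unfold nsq mv hs
  rw [Finset.sum_mul]
  exact Finset.sum_le_sum fun i _ => Finset.sum_mul_sq_le_sq_mul_sq _ _ _

end Vec

/-! ### Processes -/

/-- The sign of an optional position (`1` for the null position). -/
def sgo {κ : Type*} (x : κ → ℤˣ) : Option κ → ℝ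
  | none => 1
  | some k => sg x k

/-- A real query process: for every history `h` and outcome `w` matrices `a h w k` indexed by the
optional positions. -/
structure Pr (κ ι W : Type*) [Fintype κ] [DecidableEq κ] [Fintype ι] [DecidableEq ι]
    [Fintype W] where
  a : List W → W → Option κ → ι → ι → ℝ
  v : ι → ℝ
  hv : nsq v = 1
  orth : ∀ h k l, k ≠ l → ∀ i j, ∑ w, ∑ m, a h w k m i * a h w l m j = 0
  tot : ∀ h i j, ∑ k, ∑ w, ∑ m, a h w k m i * a h w k m j = if i = j then 1 else 0

namespace Pr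

variable {κ ι W : Type*} [Fintype κ] [DecidableEq κ] [Fintype ι] [DecidableEq ι] [Fintype W]
variable (P : Pr κ ι W)

/-- The step matrix. -/
def Q (h : List W) (w : W) (x : κ → ℤˣ) (i j : ι) : ℝ := ∑ k, sgo x k * P.a h w k i j

/-- The state after a history. -/
def A : List W → (κ → ℤˣ) → ι → ℝ
  | [], _ => P.v
  | w :: h, x => mv (P.Q h w x) (A h x)

lemma sgo_sq (x : κ → ℤˣ) (k : Option κ) : sgo x k * sgo x k = 1 := by
  cases k with
  | none => simp [sgo]
  | some k => exact sg_sq x k

lemma gram (h : List W) (x : κ → ℤˣ) (i j : ι) :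
    ∑ w, ∑ m, P.Q h w x m i * P.Q h w x m j = if i = j then 1 else 0 := by
  have e1 : ∑ w, ∑ m, P.Q h w x m i * P.Q h w x m j
      = ∑ k, ∑ l, sgo x k * sgo x l * ∑ w, ∑ m, P.a h w k m i * P.a h w l m j := by
    have : ∀ w m, P.Q h w x m i * P.Q h w x m j
        = ∑ k, ∑ l, sgo x k * sgo x l * (P.a h w k m i * P.a h w l m j) := by
      intro w m
      unfold Q
      rw [Finset.sum_mul_sum]
      refine Finset.sum_congr rfl fun k _ => Finset.sum_congr rfl fun l _ => by ring
    simp_rw [this]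
    simp_rw [Finset.mul_sum]
    calc ∑ w, ∑ m, ∑ k, ∑ l, sgo x k * sgo x l * (P.a h w k m i * P.a h w l m j)
        = ∑ w, ∑ k, ∑ m, ∑ l, sgo x k * sgo x l * (P.a h w k m i * P.a h w l m j) := by
          refine Finset.sum_congr rfl fun w _ => ?_
          rw [Finset.sum_comm]
      _ = ∑ k, ∑ w, ∑ m, ∑ l, sgo x k * sgo x l * (P.a h w k m i * P.a h w l m j) := by
          rw [Finset.sum_comm]
      _ = ∑ k, ∑ w, ∑ l, ∑ m, sgo x k * sgo x l * (P.a h w k m i * P.a h w l m j) := by
          refine Finset.sum_congr rfl fun k _ => Finset.sum_congr rfl fun w _ => ?_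
          rw [Finset.sum_comm]
      _ = ∑ k, ∑ l, ∑ w, ∑ m, sgo x k * sgo x l * (P.a h w k m i * P.a h w l m j) := by
          refine Finset.sum_congr rfl fun k _ => ?_
          rw [Finset.sum_comm]
  rw [e1, ← P.tot h i j]
  refine Finset.sum_congr rfl fun k _ => ?_
  rw [Finset.sum_eq_single k]
  · rw [sgo_sq, one_mul]
  · intro l _ hl
    rw [P.orth h k l (Ne.symm hl), mul_zero]
  · intro hk
    exact absurd (Finset.mem_univ k) hk

lemma iso (h : List W) (x : κ → ℤˣ) (u : ι → ℝ) :
    ∑ w, nsq (mv (P.Q h w x) u) = nsq u := by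
  have e1 : ∀ w, nsq (mv (P.Q h w x) u)
      = ∑ i, ∑ j, u i * u j * ∑ m, P.Q h w x m i * P.Q h w x m j := by
    intro w
    unfold nsq mv
    have : ∀ m, (∑ j, P.Q h w x m j * u j) ^ 2
        = ∑ i, ∑ j, u i * u j * (P.Q h w x m i * P.Q h w x m j) := by
      intro m
      rw [sq, Finset.sum_mul_sum]
      refine Finset.sum_congr rfl fun i _ => Finset.sum_congr rfl fun j _ => by ring
    simp_rw [this]
    rw [Finset.sum_comm]
    refine Finset.sum_congr rfl fun i _ => ?_
    rw [Finset.sum_comm]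
    refine Finset.sum_congr rfl fun j _ => ?_
    rw [Finset.mul_sum]
  simp_rw [e1]
  rw [Finset.sum_comm]
  have e2 : ∀ i, ∑ w, ∑ j, u i * u j * ∑ m, P.Q h w x m i * P.Q h w x m j = u i ^ 2 := by
    intro i
    rw [Finset.sum_comm]
    simp_rw [← Finset.mul_sum, P.gram h x]
    simp [sq]
  rw [Finset.sum_congr rfl fun i _ => e2 i]
  rfl

lemma S_nsq (t : ℕ) (x : κ → ℤˣ) : S t (fun h => nsq (P.A h x)) = 1 := by
  rw [S_peel_eq 0 t (Nat.zero_le _) _ (fun a _ => P.iso a x (P.A a x))]
  exact P.hv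

/-! ### Differences -/

/-- The contribution of step `s` to the dependence on coordinate `k`. -/
def z (s : ℕ) (k : κ) : List W → (κ → ℤˣ) → ι → ℝ
  | [], _ => 0
  | w :: h, x => if h.length = s then mv (P.a h w (some k)) (P.A h (fl k x))
      else mv (P.Q h w x) (z s k h x)

lemma z_short (s : ℕ) (k : κ) (h : List W) (x : κ → ℤˣ) (hs : h.length ≤ s) : P.z s k h x = 0 := by
  induction h with
  | nil => rfl
  | cons w h ih =>
    have h1 : h.length < s := by simpa using hs
    simp only [z]
    rw [if_neg h1.ne, ih h1.le, mv_zero]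

lemma sgo_fl (k : κ) (x : κ → ℤˣ) (l : Option κ) :
    sgo (fl k x) l = if l = some k then - sgo x l else sgo x l := by
  cases l with
  | none => simp [sgo]
  | some l =>
    simp only [sgo, Option.some.injEq]
    split_ifs with h
    · subst h; exact sg_fl_self _ _
    · exact sg_fl_ne h x

lemma Q_sub (h : List W) (w : W) (k : κ) (x : κ → ℤˣ) (u : ι → ℝ) :
    mv (P.Q h w x) u - mv (P.Q h w (fl k x)) u = (2 * sg x k) • mv (P.a h w (some k)) u := by
  funext i
  simp only [Pi.sub_apply, Pi.smul_apply, smul_eq_mul, mv]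
  rw [← Finset.sum_sub_distrib, Finset.mul_sum]
  refine Finset.sum_congr rfl fun j _ => ?_
  have : P.Q h w x i j - P.Q h w (fl k x) i j = 2 * sg x k * P.a h w (some k) i j := by
    unfold Q
    rw [← Finset.sum_sub_distrib, Finset.sum_eq_single (some k)]
    · rw [sgo_fl, if_pos rfl]
      simp only [sgo]; ring
    · intro l _ hl
      rw [sgo_fl, if_neg hl]; ring
    · intro hk
      exact absurd (Finset.mem_univ _) hk
  rw [← sub_mul, this]; ring

lemma A_sub (T : ℕ) (k : κ) (h : List W) (x : κ → ℤˣ) (hT : h.length ≤ T) :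
    P.A h x - P.A h (fl k x) = (2 * sg x k) • ∑ s ∈ Finset.range T, P.z s k h x := by
  induction h with
  | nil => simp [A, z]
  | cons w h ih =>
    have hlt : h.length < T := by simpa using hT
    have e1 : ∑ s ∈ Finset.range T, P.z s k (w :: h) x
        = mv (P.a h w (some k)) (P.A h (fl k x)) + mv (P.Q h w x) (∑ s ∈ Finset.range T, P.z s k h x) := by
      rw [mv_sum, ← Finset.sum_erase_add _ _ (Finset.mem_range.2 hlt),
        ← Finset.sum_erase_add (Finset.range T) (fun s => mv (P.Q h w x) (P.z s k h x))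
          (Finset.mem_range.2 hlt), P.z_short h.length k h x le_rfl, mv_zero, add_zero]
      have e2 : P.z h.length k (w :: h) x = mv (P.a h w (some k)) (P.A h (fl k x)) := by
        simp [z]
      rw [e2, add_comm]
      congr 1
      refine Finset.sum_congr rfl fun s hs => ?_
      simp only [z]
      rw [if_neg (Finset.ne_of_mem_erase hs).symm]
    rw [e1]
    have e3 : P.A (w :: h) x - P.A (w :: h) (fl k x)
        = mv (P.Q h w x) (P.A h x - P.A h (fl k x))
          + (mv (P.Q h w x) (P.A h (fl k x)) - mv (P.Q h w (fl k x)) (P.A h (fl k x))) := by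
      simp only [A]
      rw [mv_sub]
      abel
    rw [e3, ih hlt.le, Q_sub, mv_smul, ← smul_add, add_comm]

lemma D_nsq (T : ℕ) (k : κ) (h : List W) (x : κ → ℤˣ) (hT : h.length ≤ T) :
    D (fun x => nsq (P.A h x)) k x
      = ∑ s ∈ Finset.range T, dot (P.z s k h x) (P.A h x + P.A h (fl k x)) := by
  rw [D_fl, nsq_sub_nsq, P.A_sub T k h x hT, dot_smul_left, ← dot_sum_left]
  have := sg_sq x k
  linear_combination (dot (∑ s ∈ Finset.range T, P.z s k h x) (P.A h x + P.A h (fl k x))) * this

end Pr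

end Pool.Agent.H703R2.AA
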